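import Pool.Agent.Q19.JL.Glob
import Pool.Agent.Y729.AH.Leg

/-!
# Almost all modular invariants of all heights, ordered by the primes at which they reduce to `0`,
`1728` or `∞`
-/

set_option autoImplicit false

namespace Pool.Agent.Q19.JL

open NumberField IsDedekindDomain Finset Pool.Agent.H691R3
open Pool.Agent.TH876.Loc (Pr Pt M df L one_le_M sp mem_sp hgt nn nn_pos nn_mono one_le_nn nn_union
  mx lg lg_one logHeight_le df_nonneg hgt_nonneg)
open Pool.Agent.TH876.KR (df_inr df_int side side_sum mem_side side_sub df_eq_zero log_nn)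
open Pool.Agent.TH876.FH (GoodAt IsPeriod faltings arch)
open Pool.Agent.Y733.FF (SemiAt IntAt discExp discSum multN addN mw aw mw_nonneg aw_nonneg good_int
  semi_disc disc_good disc_bound supp_mw supp_aw supp_disc log_multN log_addN bad_fin arch_le)
open Pool.Agent.Y729.AH (fin_of_bound)

theorem zz_inj (K : Type) [Field K] [NumberField K] : Function.Injective (zz (K := K)) := by
  intro a b h
  unfold zz at h
  have h1 := neg_injective h
  rwa [div_left_inj' n1728] at h1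

/-- the invariants -/
def Iv (K : Type) [Field K] [NumberField K] (X : ℝ) : Set K :=
  {j | j ≠ 0 ∧ j ≠ 1728 ∧ Real.exp (RR (zz j)) ≤ X}

variable {K : Type} [Field K] [NumberField K]

open Classical in
theorem exp_RR (x : K) : Real.exp (RR x) = nn (sp x \ T6 K) := Real.exp_log (nn_pos _)

open Classical in
theorem Iv_count (K : Type) [Field K] [NumberField K] (ε : ℝ) (hε : 0 < ε) : ∃ C : ℝ, 0 < C ∧
    ∀ X : ℝ, 1 ≤ X → (Iv K X).Finite ∧ ((Iv K X).ncard : ℝ) ≤ C * X ^ (2 / 3 + ε) := by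
  obtain ⟨D, hD, h⟩ := Pool.Agent.Y728.mainK K ε hε
  have hT := one_le_nn (T6 K)
  have hTp := nn_pos (T6 K)
  refine ⟨D * nn (T6 K) ^ (2 / 3 + ε), by positivity, fun X hX => ?_⟩
  refine fin_of_bound _ _ fun F hF => ?_
  have h1 := h (nn (T6 K) * X) (by nlinarith) (F.image zz) fun x hx => by
    obtain ⟨j, hj, rfl⟩ := Finset.mem_image.1 hx
    obtain ⟨k0, k1, k2⟩ := hF (Finset.mem_coe.2 hj)
    rw [exp_RR] at k2
    refine ⟨pt_zz k0 k1, (Pool.Agent.Y728.nn_le_mul _ (T6 K)).trans ?_⟩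
    exact mul_le_mul_of_nonneg_left k2 hTp.le
  rw [Finset.card_image_of_injective _ (zz_inj K)] at h1
  refine h1.trans (le_of_eq ?_)
  rw [Real.mul_rpow hTp.le (by linarith)]
  ring

theorem Iv_fin (K : Type) [Field K] [NumberField K] {X : ℝ} (hX : 1 ≤ X) : (Iv K X).Finite := by
  obtain ⟨C, -, h⟩ := Iv_count K 1 one_pos
  exact (h X hX).1

theorem big (C η : ℝ) (hη : 0 < η) : ∃ X0 : ℝ, 1 ≤ X0 ∧ ∀ X, X0 ≤ X → C ≤ X ^ η := by
  have h := (tendsto_rpow_atTop hη).eventually_ge_atTop C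
  obtain ⟨X0, hX⟩ := Filter.eventually_atTop.1 h
  exact ⟨max 1 X0, le_max_left _ _, fun X hX' => hX X ((le_max_right _ _).trans hX')⟩

theorem Iv_upper (K : Type) [Field K] [NumberField K] (δ : ℝ) (hδ : 0 < δ) : ∃ X₀ : ℝ, 1 ≤ X₀ ∧
    ∀ X : ℝ, X₀ ≤ X → ((Iv K X).ncard : ℝ) ≤ X ^ (2 / 3 + δ) := by
  obtain ⟨C, hC, h⟩ := Iv_count K (δ / 2) (by positivity)
  obtain ⟨X0, hX0, hb⟩ := big C (δ / 2) (by positivity)
  refine ⟨X0, hX0, fun X hX => ?_⟩
  have hX1 : 1 ≤ X := hX0.trans hX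
  have hXp : 0 < X := by linarith
  calc ((Iv K X).ncard : ℝ) ≤ C * X ^ (2 / 3 + δ / 2) := (h X hX1).2
    _ ≤ X ^ (δ / 2) * X ^ (2 / 3 + δ / 2) :=
        mul_le_mul_of_nonneg_right (hb X hX) (Real.rpow_nonneg hXp.le _)
    _ = _ := by
        rw [← Real.rpow_add hXp]
        congr 1
        ring

open Classical in
theorem Iv_lower (K : Type) [Field K] [NumberField K] (δ : ℝ) (hδ : 0 < δ) : ∃ X₀ : ℝ, 1 ≤ X₀ ∧
    ∀ X : ℝ, X₀ ≤ X → X ^ (2 / 3 - δ) ≤ ((Iv K X).ncard : ℝ) := by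
  obtain ⟨X1, hX1, h⟩ := Pool.Agent.Y812.lower_pointsK K δ hδ
  refine ⟨X1, hX1, fun X hX => ?_⟩
  have hX1' : 1 ≤ X := hX1.trans hX
  obtain ⟨F, hF1, hF2⟩ := h X hX
  have hsub : ((F.image fun x : K => -(1728 * x) : Finset K) : Set K) ⊆ Iv K X := by
    intro j hj
    rw [Finset.mem_coe, Finset.mem_image] at hj
    obtain ⟨x, hx, rfl⟩ := hj
    obtain ⟨h1, h2⟩ := hF1 x hx
    have hz : zz (-(1728 * x)) = x := by
      unfold zz
      field_simp
    refine ⟨neg_ne_zero.2 (mul_ne_zero n1728 h1.1), fun h => h1.2 ?_, ?_⟩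
    · have : (1728 : K) * (x + 1) = 0 := by linear_combination -h
      rcases mul_eq_zero.1 this with h | h
      · exact absurd h n1728
      · exact h
    · rw [hz, exp_RR]
      exact (nn_mono Finset.sdiff_subset).trans h2
  have hcard : (F.image fun x : K => -(1728 * x)).card = F.card := by
    refine Finset.card_image_of_injective _ fun a b hab => ?_
    exact mul_left_cancel₀ n1728 (neg_injective hab)
  have h3 : (F.image fun x : K => -(1728 * x)).card ≤ (Iv K X).ncard := by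
    rw [← Set.ncard_coe_finset]
    exact Set.ncard_le_ncard hsub (Iv_fin K hX1')
  rw [hcard] at h3
  exact hF2.trans (by exact_mod_cast h3)

open Classical in
/-- the exceptional invariants -/
theorem exc6 (K : Type) [Field K] [NumberField K] {M : ℝ} (hM : 1 / 3 < M) :
    ∃ ν : ℝ, 0 < ν ∧ ∃ C : ℝ, 0 < C ∧ ∀ X : ℝ, 1 ≤ X →
      (({j : K | j ∈ Iv K X ∧ M * RR (zz j) ≤ hgt (zz j)} : Set K).ncard : ℝ) ≤
        C * X ^ (2 / 3 - ν) := by
  obtain ⟨ν, hν, C, hC, h⟩ := Pool.Agent.Y728.AK.exc_aff K (Pool.Agent.Y728.AK.almost_allK K)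
    (T6 K) hM
  refine ⟨ν, hν, C, hC, fun X hX => (fin_of_bound _ _ fun F hF => ?_).2⟩
  have h1 := h X hX (F.image zz) fun x hx => by
    obtain ⟨j, hj, rfl⟩ := Finset.mem_image.1 hx
    obtain ⟨⟨k0, k1, k2⟩, k3⟩ := hF (Finset.mem_coe.2 hj)
    rw [exp_RR] at k2
    exact ⟨pt_zz k0 k1, k2, k3⟩
  rwa [Finset.card_image_of_injective _ (zz_inj K)] at h1

/-- the exceptional invariants, with an additive constant; the proportion -/
theorem exc_prop (K : Type) [Field K] [NumberField K] {M : ℝ} (A : ℝ) (hM : 1 / 3 < M) :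
    ∃ ν X₀ : ℝ, 0 < ν ∧ 1 ≤ X₀ ∧ ∀ X : ℝ, X₀ ≤ X → ∀ S : Set K, S ⊆ Iv K X →
      (∀ j ∈ S, ¬ hgt (zz j) ≤ M * RR (zz j) - A) →
      ((S.ncard : ℕ) : ℝ) ≤ X ^ (-ν) * (Iv K X).ncard := by
  obtain ⟨M', hM'⟩ : ∃ M', M' = (M + 1 / 3) / 2 := ⟨_, rfl⟩
  have h1 : 1 / 3 < M' := by rw [hM']; linarith
  have h2 : 0 < M - M' := by rw [hM']; linarith
  obtain ⟨ν, hν, C, hC, he⟩ := exc6 K h1
  have hR : 1 ≤ Real.exp (|A| / (M - M')) := Real.one_le_exp (by positivity)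
  obtain ⟨N0, hN0⟩ : ∃ N0 : ℝ, N0 = ((Iv K (Real.exp (|A| / (M - M')))).ncard : ℝ) := ⟨_, rfl⟩
  have hN0' : 0 ≤ N0 := by rw [hN0]; exact Nat.cast_nonneg _
  obtain ⟨ν1, hν1⟩ : ∃ ν1, ν1 = min ν (2 / 3) := ⟨_, rfl⟩
  have hν10 : 0 < ν1 := by rw [hν1]; positivity
  have hν1a : ν1 ≤ ν := by rw [hν1]; exact min_le_left _ _
  have hν1b : ν1 ≤ 2 / 3 := by rw [hν1]; exact min_le_right _ _
  obtain ⟨X1, hX1, h3⟩ := Iv_lower K (ν1 / 2) (by positivity)
  obtain ⟨X2, hX2, h4⟩ := big (C + N0) (ν1 / 4) (by positivity)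
  refine ⟨ν1 / 4, max X1 X2, by positivity, hX1.trans (le_max_left _ _), fun X hX S hS hS2 => ?_⟩
  have k1 : X1 ≤ X := (le_max_left _ _).trans hX
  have k2 : X2 ≤ X := (le_max_right _ _).trans hX
  have hX1' : 1 ≤ X := hX1.trans k1
  have hX0 : 0 < X := by linarith
  have hfin := Iv_fin K hX1'
  have hsub : S ⊆ {j : K | j ∈ Iv K X ∧ M' * RR (zz j) ≤ hgt (zz j)} ∪
      Iv K (Real.exp (|A| / (M - M'))) := by
    intro j hj
    by_cases hc : M' * RR (zz j) ≤ hgt (zz j)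
    · exact Or.inl ⟨hS hj, hc⟩
    · right
      obtain ⟨g0, g1, -⟩ := hS hj
      refine ⟨g0, g1, Real.exp_le_exp.2 ?_⟩
      rw [le_div_iff₀ h2]
      have h5 := not_le.1 (hS2 j hj)
      have h6 := not_le.1 hc
      have h7 := le_abs_self A
      nlinarith
  have h5 := Set.ncard_le_ncard hsub ((hfin.subset fun j hj => hj.1).union (Iv_fin K hR))
  have h6 := h5.trans (Set.ncard_union_le _ _)
  have h7 : (S.ncard : ℝ) ≤ C * X ^ (2 / 3 - ν) + N0 := by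
    have h8 : (S.ncard : ℝ) ≤ (({j : K | j ∈ Iv K X ∧ M' * RR (zz j) ≤ hgt (zz j)} : Set K).ncard : ℝ)
      + N0 := by
      rw [hN0]
      exact_mod_cast h6
    exact h8.trans (add_le_add_left (he X hX1') _)
  have h8 : X ^ (2 / 3 - ν) ≤ X ^ (2 / 3 - ν1) :=
    Real.rpow_le_rpow_of_exponent_le hX1' (by linarith)
  have h9 : 1 ≤ X ^ (2 / 3 - ν1) := Real.one_le_rpow hX1' (by linarith)
  have h10 : (S.ncard : ℝ) ≤ (C + N0) * X ^ (2 / 3 - ν1) := by nlinarith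
  calc (S.ncard : ℝ) ≤ (C + N0) * X ^ (2 / 3 - ν1) := h10
    _ ≤ X ^ (ν1 / 4) * X ^ (2 / 3 - ν1) :=
        mul_le_mul_of_nonneg_right (h4 X k2) (Real.rpow_nonneg hX0.le _)
    _ = X ^ (-(ν1 / 4)) * X ^ (2 / 3 - ν1 / 2) := by
        rw [← Real.rpow_add hX0, ← Real.rpow_add hX0]
        congr 1
        ring
    _ ≤ _ := mul_le_mul_of_nonneg_left (h3 X k1) (Real.rpow_nonneg hX0.le _)

theorem lc_nonneg (E : WeierstrassCurve K) (hE : E.Δ ≠ 0) : 0 ≤ lc E := by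
  rw [lc_eq E hE]
  exact finsum_nonneg fun v => cw_nonneg v E

/-- the height of the invariant and the height of the point -/
theorem ht_one (j : K) (h0 : j ≠ 0) (h1 : j ≠ 1728) :
    Height.logHeight₁ j ≤ hgt (zz j) + Height.logHeight₁ (1728 : K) := by
  have e : j = -(zz j) * 1728 := by
    unfold zz
    field_simp
  have h2 := Height.logHeight₁_mul_le (-(zz j)) (1728 : K)
  rw [← e, Height.logHeight₁_neg] at h2
  have h3 := logHeight_le (pt_zz h0 h1)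
  linarith

theorem ht_two (j : K) (h0 : j ≠ 0) (h1 : j ≠ 1728) :
    hgt (zz j) ≤ Height.logHeight₁ j + (Height.logHeight₁ (1728 : K) +
      Module.finrank ℚ K * Real.log 2) := by
  have k0 : j / 1728 ≠ 0 := div_ne_zero h0 n1728
  have k1 : j / 1728 ≠ 1 := fun h => h1 (by rwa [div_eq_one_iff_eq n1728] at h)
  have h2 := Pool.Agent.Y729.AH.hgt_le k0 k1
  have h3 := Height.logHeight₁_mul_le j (1728 : K)⁻¹
  rw [Height.logHeight₁_inv, ← div_eq_mul_inv] at h3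
  have e : zz j = -(j / 1728) := rfl
  rw [e]
  linarith

/-- **the slope of the stable height: from above** -/
theorem stable_up (K : Type) [Field K] [NumberField K] (κ c : ℝ) (hκ : 1 / 60 < κ) :
    ∃ ν X₀ : ℝ, 0 < ν ∧ 1 ≤ X₀ ∧ ∀ X : ℝ, X₀ ≤ X → ∀ S : Set K, S ⊆ Iv K X →
      (∀ j ∈ S, ∃ (E : WeierstrassCurve K) (τ : InfinitePlace K → UpperHalfPlane), E.Δ ≠ 0 ∧
        E.c₄ ^ 3 / E.Δ = j ∧ IsPeriod j τ ∧
        κ * lc E + c ≤ Module.finrank ℚ K * faltings j τ) →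
      ((S.ncard : ℕ) : ℝ) ≤ X ^ (-ν) * (Iv K X).ncard := by
  obtain ⟨c1, hc1, hf⟩ := Pool.Agent.Y729.FW.fal_two
  obtain ⟨n, hn⟩ : ∃ n : ℝ, n = Module.finrank ℚ K := ⟨_, rfl⟩
  obtain ⟨B, hB⟩ : ∃ B, B = Height.logHeight₁ (1728 : K) + c1 * n := ⟨_, rfl⟩
  have hp : 0 < 1 / 12 + 7 * κ := by linarith
  have hM : 1 / 3 < 4 * κ / (1 / 12 + 7 * κ) := by
    rw [div_lt_div_iff₀ (by norm_num) hp]
    linarith
  obtain ⟨ν, X₀, hν, hX₀, h⟩ := exc_prop K ((B / 12 - c + 1) / (1 / 12 + 7 * κ)) hM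
  refine ⟨ν, X₀, hν, hX₀, fun X hX S hS hS2 => h X hX S hS fun j hj hcon => ?_⟩
  obtain ⟨E, τ, hE, hjE, hτ, hv⟩ := hS2 j hj
  obtain ⟨g0, g1, -⟩ := hS hj
  have k1 := hf K j τ hτ
  have k2 := ht_one j g0 g1
  have k3 := lc_ge hE hjE g0 g1
  rw [← hn] at k1 hv
  have k4 : hgt (zz j) * (1 / 12 + 7 * κ) ≤ 4 * κ * RR (zz j) - (B / 12 - c + 1) := by
    have k5 := mul_le_mul_of_nonneg_right hcon hp.le
    have e1 : (4 * κ / (1 / 12 + 7 * κ) * RR (zz j) - (B / 12 - c + 1) / (1 / 12 + 7 * κ)) *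
        (1 / 12 + 7 * κ) = 4 * κ * RR (zz j) - (B / 12 - c + 1) := by
      field_simp
    rwa [e1] at k5
  have k6 : κ * (4 * RR (zz j) - 7 * hgt (zz j)) ≤ κ * lc E :=
    mul_le_mul_of_nonneg_left k3 (by linarith)
  linarith

/-- **the slope of the stable height: from below** -/
theorem stable_low (K : Type) [Field K] [NumberField K] (κ c : ℝ) (hκ : κ < 1 / 60) :
    ∃ F : Set K, F.Finite ∧ ∀ j : K, j ≠ 0 → j ≠ 1728 → j ∉ F →
      ∃ E : WeierstrassCurve K, E.Δ ≠ 0 ∧ E.c₄ ^ 3 / E.Δ = j ∧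
        ∀ τ : InfinitePlace K → UpperHalfPlane, IsPeriod j τ →
          κ * lc E + c < Module.finrank ℚ K * faltings j τ := by
  obtain ⟨k, hk⟩ : ∃ k, k = max κ 0 := ⟨_, rfl⟩
  have hk0 : 0 ≤ k := by rw [hk]; exact le_max_right _ _
  have hkκ : κ ≤ k := by rw [hk]; exact le_max_left _ _
  have hk1 : k < 1 / 60 := by rw [hk]; exact max_lt hκ (by norm_num)
  obtain ⟨δ, hδ⟩ : ∃ δ, δ = (1 - 60 * k) / 2 := ⟨_, rfl⟩
  have hδ0 : 0 < δ := by rw [hδ]; linarith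
  obtain ⟨c1, hc1, hf⟩ := Pool.Agent.Y729.FW.fal_one hδ0
  obtain ⟨n, hn⟩ : ∃ n : ℝ, n = Module.finrank ℚ K := ⟨_, rfl⟩
  obtain ⟨B, hB⟩ : ∃ B, B = Height.logHeight₁ (1728 : K) + n * Real.log 2 + c1 * n := ⟨_, rfl⟩
  have hq : 0 < 1 - 60 * k * (1 + δ) := by
    rw [hδ]
    nlinarith
  obtain ⟨H0, hH0⟩ : ∃ H0, H0 = (12 * (1 + δ) * |c| + |B|) / (1 - 60 * k * (1 + δ)) := ⟨_, rfl⟩
  refine ⟨{j : K | Height.logHeight₁ (zz j) ≤ H0}, ?_, ?_⟩
  · have h1 := NumberField.finite_setOfPred_logHeight₁_le (K := K) H0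
    exact h1.preimage (zz_inj K).injOn
  · intro j h0 h1 hj
    have hH : H0 < hgt (zz j) := by
      have h2 : ¬ Height.logHeight₁ (zz j) ≤ H0 := hj
      exact (not_le.1 h2).trans_le (logHeight_le (pt_zz h0 h1))
    refine ⟨eMin j, eMin_ne h0 h1, eMin_j h0 h1, fun τ hτ => ?_⟩
    have k1 := hf K j τ hτ
    have k2 := ht_two j h0 h1
    have k3 := lc_min h0 h1
    have k4 := lc_nonneg _ (eMin_ne h0 h1)
    rw [← hn] at k1 k2 ⊢
    obtain ⟨f, hfd⟩ : ∃ f, f = faltings j τ := ⟨_, rfl⟩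
    rw [← hfd] at k1 ⊢
    rw [hH0, div_lt_iff₀ hq] at hH
    have k5 : κ * lc (eMin j) ≤ k * (5 * hgt (zz j)) :=
      (mul_le_mul_of_nonneg_right hkκ k4).trans (mul_le_mul_of_nonneg_left k3 hk0)
    have k6 := le_abs_self c
    have k7 := le_abs_self B
    have k8 : (1 + δ) * (12 * (k * (5 * hgt (zz j)) + c)) < (1 + δ) * (12 * (n * f)) := by
      have e1 : (1 + δ) * (12 * n * f) = (1 + δ) * (12 * (n * f)) := by ring
      rw [e1] at k1
      have k9 : (1 + δ) * c ≤ (1 + δ) * |c| := mul_le_mul_of_nonneg_left k6 (by linarith)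
      nlinarith
    have k9 := lt_of_mul_lt_mul_left k8 (by linarith)
    linarith

end Pool.Agent.Q19.JL
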