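import Pool.Agent.Q19.JL.Fin

/-!
# The unstable height of all twists
-/

set_option autoImplicit false

namespace Pool.Agent.Q19.JL

open NumberField IsDedekindDomain Finset Pool.Agent.H691R3
open Pool.Agent.TH876.Loc (Pr Pt M df L one_le_M sp mem_sp hgt nn nn_pos nn_mono one_le_nn nn_union
  mx lg lg_one logHeight_le df_nonneg hgt_nonneg)
open Pool.Agent.TH876.FH (GoodAt IsPeriod faltings arch)
open Pool.Agent.Y733.FF (SemiAt IntAt discExp discSum multN addN mw aw arch_le fv_one_iff)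

variable {K : Type} [Field K] [NumberField K]

open Classical in
/-- the radical of an invariant -/
theorem rad_eq {j : K} (h0 : j ≠ 0) (h1 : j ≠ 1728) :
    ∏ᶠ v ∈ {v : HeightOneSpectrum (𝓞 K) | v.valuation K 6 = 1 ∧
      (v.valuation K j ≠ 1 ∨ v.valuation K (j - 1728) ≠ 1)}, (Ideal.absNorm v.asIdeal : ℝ) =
    Real.exp (RR (zz j)) := by
  rw [exp_RR]
  have hS : {v : HeightOneSpectrum (𝓞 K) | v.valuation K 6 = 1 ∧
      (v.valuation K j ≠ 1 ∨ v.valuation K (j - 1728) ≠ 1)} =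
      ((sp (zz j) \ T6 K : Finset (Pr K)) : Set (Pr K)) := by
    ext v
    rw [Set.mem_ofPred_eq, Finset.mem_coe, Finset.mem_sdiff, mem_sp (pt_zz h0 h1)]
    constructor
    · rintro ⟨h6, h⟩
      have hT : v ∉ T6 K := by
        rw [mem_T6, not_not, fv_one_iff]
        exact h6
      refine ⟨fun hc => ?_, hT⟩
      rw [fv_zz hT, fv_zz1 hT, fv_one_iff, fv_one_iff] at hc
      rcases h with h | h
      · exact h hc.1
      · exact h hc.2
    · rintro ⟨h, hT⟩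
      refine ⟨v6 hT, ?_⟩
      rw [fv_zz hT, fv_zz1 hT, fv_one_iff, fv_one_iff, not_and_or] at h
      exact h
  rw [hS, finprod_mem_coe_finset]
  rfl

theorem arch_ge : ∃ c : ℝ, 0 ≤ c ∧
    ∀ (K : Type) [Field K] [NumberField K] (τ : InfinitePlace K → UpperHalfPlane),
      -(c * Module.finrank ℚ K) ≤ ∑ w : InfinitePlace K, (w.mult : ℝ) * arch (τ w) := by
  obtain ⟨c, hc⟩ := Pool.Agent.TH876.FH.ana.1 1 one_pos
  refine ⟨|c|, abs_nonneg c, ?_⟩
  intro K _ _ τ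
  rw [← Pool.Agent.Y729.FW.sum_mult, Finset.mul_sum, ← Finset.sum_neg_distrib]
  refine Finset.sum_le_sum fun w _ => ?_
  have h1 := hc (τ w)
  have h2 : 0 ≤ Real.log (max ‖Pool.Agent.TH876.FH.jInv (τ w)‖ 1) :=
    Real.log_nonneg (le_max_right _ _)
  have h3 := le_abs_self c
  have h4 := abs_nonneg c
  have h5 : -|c| ≤ arch (τ w) := by linarith
  have h6 : (0 : ℝ) ≤ w.mult := Nat.cast_nonneg _
  nlinarith

/-- the inequality for all twists -/
def Up (e C : ℝ) (j : K) : Prop := ∀ (E : WeierstrassCurve K)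
  (τ : InfinitePlace K → UpperHalfPlane), E.Δ ≠ 0 → E.c₄ ^ 3 / E.Δ = j → IsPeriod j τ →
  discSum E + ∑ w : InfinitePlace K, (w.mult : ℝ) * arch (τ w) ≤ (4 + e) * lc E + C

/-- the opposite inequality for one twist -/
def Low (e C : ℝ) (j : K) : Prop := ∀ τ : InfinitePlace K → UpperHalfPlane,
  (4 - e) * lc (eMax j) - C ≤ discSum (eMax j) +
    ∑ w : InfinitePlace K, (w.mult : ℝ) * arch (τ w)

theorem unst (K : Type) [Field K] [NumberField K] (e : ℝ) (he : 0 < e) : ∃ C ν X₀ : ℝ, 0 < ν ∧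
    0 ≤ C ∧ 1 ≤ X₀ ∧ ∀ X : ℝ, X₀ ≤ X → ∀ S : Set K, S ⊆ Iv K X →
      (∀ j ∈ S, ¬ (Up e C j ∧ Low e C j)) →
      ((S.ncard : ℕ) : ℝ) ≤ X ^ (-ν) * (Iv K X).ncard := by
  obtain ⟨c1, hc1, h1⟩ := arch_le
  obtain ⟨c2, hc2, h2⟩ := arch_ge
  obtain ⟨n, hn⟩ : ∃ n : ℝ, n = Module.finrank ℚ K := ⟨_, rfl⟩
  have hn0 : 0 ≤ n := by rw [hn]; exact Nat.cast_nonneg _
  obtain ⟨e', he'⟩ : ∃ e', e' = min e 4 := ⟨_, rfl⟩
  have he'0 : 0 < e' := by rw [he']; exact lt_min he (by norm_num)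
  have he'1 : e' ≤ e := by rw [he']; exact min_le_left _ _
  have he'2 : e' ≤ 4 := by rw [he']; exact min_le_right _ _
  obtain ⟨C, hC⟩ : ∃ C, C = |c6 K| + n * Real.log 1728 + c1 * n + c2 * n := ⟨_, rfl⟩
  have hl : 0 ≤ Real.log 1728 := Real.log_nonneg (by norm_num)
  have hC0 : 0 ≤ C := by rw [hC]; positivity
  obtain ⟨M, hM⟩ : ∃ M, M = min ((2 + 4 * e) / (6 + 7 * e)) ((10 + 2 * e') / 30) := ⟨_, rfl⟩
  have hM1 : 1 / 3 < M := by
    rw [hM]
    refine lt_min ?_ ?_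
    · rw [div_lt_div_iff₀ (by norm_num) (by positivity)]
      linarith
    · linarith
  have hMa : M * (6 + 7 * e) ≤ 2 + 4 * e := by
    have : M ≤ (2 + 4 * e) / (6 + 7 * e) := by rw [hM]; exact min_le_left _ _
    rwa [le_div_iff₀ (by positivity)] at this
  have hMb : M * 30 ≤ 10 + 2 * e' := by
    have : M ≤ (10 + 2 * e') / 30 := by rw [hM]; exact min_le_right _ _
    rwa [le_div_iff₀ (by positivity)] at this
  obtain ⟨ν, X₀, hν, hX₀, h⟩ := exc_prop K 0 hM1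
  refine ⟨C, ν, X₀, hν, hC0, hX₀, fun X hX S hS hS2 => h X hX S hS fun j hj hcon => ?_⟩
  rw [sub_zero] at hcon
  obtain ⟨g0, g1, -⟩ := hS hj
  have hR := RR_nonneg (zz j)
  have hH := hgt_nonneg (zz j)
  refine hS2 j hj ⟨fun E τ hE hjE hτ => ?_, fun τ => ?_⟩
  · have k1 := h1 K j τ hτ
    have k2 := disc_all hE hjE g0 g1
    have k3 := lc_ge hE hjE g0 g1
    rw [← hn] at k1 k2
    have k4 := le_abs_self (c6 K)
    have k5 : hgt (zz j) * (6 + 7 * e) ≤ (2 + 4 * e) * RR (zz j) := by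
      have := mul_le_mul_of_nonneg_right hcon (show 0 ≤ 6 + 7 * e by positivity)
      nlinarith
    have k6 : e * (4 * RR (zz j) - 7 * hgt (zz j)) ≤ e * lc E :=
      mul_le_mul_of_nonneg_left k3 he.le
    have k7 : 0 ≤ c2 * n := by positivity
    rw [hC]
    linarith
  · have k1 := h2 K τ
    have k2 := disc_max g0 g1
    have k3 := lc_max g0 g1
    have k4 := lc_nonneg _ (eMax_ne g0 g1)
    rw [← hn] at k1
    have k5 : 30 * hgt (zz j) ≤ (10 + 2 * e') * RR (zz j) := by nlinarith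
    have k6 : (4 - e') * lc (eMax j) ≤ (4 - e') * (2 * RR (zz j)) :=
      mul_le_mul_of_nonneg_left k3 (by linarith)
    have k7 : (4 - e) * lc (eMax j) ≤ (4 - e') * lc (eMax j) :=
      mul_le_mul_of_nonneg_right (by linarith) k4
    have k8 : 0 ≤ c1 * n := by positivity
    have k9 : 0 ≤ n * Real.log 1728 := by positivity
    have k10 := abs_nonneg (c6 K)
    rw [hC]
    linarith

end Pool.Agent.Q19.JL
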