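import Pool.Agent.Q19.JL.Fin2

/-!
# The discriminants of all twists
-/

set_option autoImplicit false

namespace Pool.Agent.Q19.JL

open NumberField IsDedekindDomain Finset Pool.Agent.H691R3
open Pool.Agent.TH876.Loc (Pr Pt hgt hgt_nonneg)
open Pool.Agent.Y733.FF (discExp discSum multN addN bad_fin disc_good)

variable {K : Type} [Field K] [NumberField K]

/-- the norm of the minimal discriminant -/
theorem disc_prod (E : WeierstrassCurve K) (hE : E.Δ ≠ 0) :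
    ∏ᶠ v : HeightOneSpectrum (𝓞 K), (Ideal.absNorm v.asIdeal : ℝ) ^ discExp v E =
      Real.exp (discSum E) := by
  classical
  have hb := bad_fin E hE
  have h1 : (Function.mulSupport fun v : HeightOneSpectrum (𝓞 K) =>
      (Ideal.absNorm v.asIdeal : ℝ) ^ discExp v E) ⊆ (hb.toFinset : Set (Pr K)) := by
    intro v hv
    rw [Finset.mem_coe, Set.Finite.mem_toFinset]
    intro hg
    apply hv
    show (Ideal.absNorm v.asIdeal : ℝ) ^ discExp v E = 1
    rw [disc_good v E hg, pow_zero]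
  have h2 : (Function.support fun v : HeightOneSpectrum (𝓞 K) =>
      (discExp v E : ℝ) * Real.log (Ideal.absNorm v.asIdeal : ℝ)) ⊆
        (hb.toFinset : Set (Pr K)) := by
    intro v hv
    rw [Finset.mem_coe, Set.Finite.mem_toFinset]
    intro hg
    apply hv
    show (discExp v E : ℝ) * Real.log (Ideal.absNorm v.asIdeal : ℝ) = 0
    rw [disc_good v E hg, Nat.cast_zero, zero_mul]
  unfold discSum
  rw [finprod_eq_prod_of_mulSupport_subset _ h1, finsum_eq_sum_of_support_subset _ h2,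
    Real.exp_sum]
  refine Finset.prod_congr rfl fun v _ => ?_
  have h3 : Real.exp (Real.log (Ideal.absNorm v.asIdeal : ℝ)) = (Ideal.absNorm v.asIdeal : ℝ) :=
    Real.exp_log (lt_trans one_pos (Pool.Agent.W223.AK.Nv_one_lt v))
  rw [mul_comm, Real.exp_mul, h3, Real.rpow_natCast]

/-- **Szpiro's inequality for all twists** -/
theorem szp_up (K : Type) [Field K] [NumberField K] (κ c : ℝ) (hκ : 4 < κ) :
    ∃ ν X₀ : ℝ, 0 < ν ∧ 1 ≤ X₀ ∧ ∀ X : ℝ, X₀ ≤ X → ∀ S : Set K, S ⊆ Iv K X →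
      (∀ j ∈ S, ∃ E : WeierstrassCurve K, E.Δ ≠ 0 ∧ E.c₄ ^ 3 / E.Δ = j ∧
        κ * lc E + c < discSum E) →
      ((S.ncard : ℕ) : ℝ) ≤ X ^ (-ν) * (Iv K X).ncard := by
  obtain ⟨e, he⟩ : ∃ e, e = κ - 4 := ⟨_, rfl⟩
  have he0 : 0 < e := by rw [he]; linarith
  obtain ⟨C, hC⟩ : ∃ C, C = |c6 K| + Module.finrank ℚ K * Real.log 1728 + |c| := ⟨_, rfl⟩
  have hl : 0 ≤ Real.log 1728 := Real.log_nonneg (by norm_num)
  have hC0 : 0 ≤ C := by rw [hC]; positivity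
  obtain ⟨M, hM⟩ : ∃ M, M = (2 + 4 * e) / (6 + 7 * e) := ⟨_, rfl⟩
  have hM1 : 1 / 3 < M := by
    rw [hM, div_lt_div_iff₀ (by norm_num) (by positivity)]
    linarith
  have hMa : M * (6 + 7 * e) = 2 + 4 * e := by
    rw [hM]
    field_simp
  obtain ⟨ν, X₀, hν, hX₀, h⟩ := exc_prop K C hM1
  refine ⟨ν, X₀, hν, hX₀, fun X hX S hS hS2 => h X hX S hS fun j hj hcon => ?_⟩
  obtain ⟨g0, g1, -⟩ := hS hj
  obtain ⟨E, hE, hjE, hv⟩ := hS2 j hj
  have k2 := disc_all hE hjE g0 g1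
  have k3 := lc_ge hE hjE g0 g1
  have k1 : 0 ≤ ∑ w : InfinitePlace K, (w.mult : ℝ) * Real.log (max (w j) 1) :=
    Finset.sum_nonneg fun w _ =>
      mul_nonneg (Nat.cast_nonneg _) (Real.log_nonneg (le_max_right _ _))
  have k4 := le_abs_self (c6 K)
  have k4' := neg_abs_le c
  have k5 : hgt (zz j) * (6 + 7 * e) ≤ (2 + 4 * e) * RR (zz j) - C * (6 + 7 * e) := by
    have := mul_le_mul_of_nonneg_right hcon (show 0 ≤ 6 + 7 * e by positivity)
    rw [sub_mul] at this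
    have h9 : M * RR (zz j) * (6 + 7 * e) = (2 + 4 * e) * RR (zz j) := by
      rw [mul_right_comm, hMa]
    linarith
  have k6 : e * (4 * RR (zz j) - 7 * hgt (zz j)) ≤ e * lc E :=
    mul_le_mul_of_nonneg_left k3 he0.le
  have k7 : 0 ≤ C * e := by positivity
  have k8 : κ * lc E = 4 * lc E + e * lc E := by rw [he]; ring
  rw [k8] at hv
  have k9 : C * (6 + 7 * e) = 6 * C + 7 * (C * e) := by ring
  rw [k9] at k5
  have k10 : c6 K + Module.finrank ℚ K * Real.log 1728 - c ≤ C := by rw [hC]; linarith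
  linarith

/-- **the exponent is sharp** -/
theorem szp_low (K : Type) [Field K] [NumberField K] (κ c : ℝ) (hκ : κ < 4) :
    ∃ ν X₀ : ℝ, 0 < ν ∧ 1 ≤ X₀ ∧ ∀ X : ℝ, X₀ ≤ X → ∀ S : Set K, S ⊆ Iv K X →
      (∀ j ∈ S, ∀ E : WeierstrassCurve K, E.Δ ≠ 0 → E.c₄ ^ 3 / E.Δ = j →
        discSum E ≤ κ * lc E + c) →
      ((S.ncard : ℕ) : ℝ) ≤ X ^ (-ν) * (Iv K X).ncard := by
  obtain ⟨k, hk⟩ : ∃ k, k = max κ 0 := ⟨_, rfl⟩
  have hk0 : 0 ≤ k := by rw [hk]; exact le_max_right _ _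
  have hk1 : κ ≤ k := by rw [hk]; exact le_max_left _ _
  have hk4 : k < 4 := by rw [hk]; exact max_lt hκ (by norm_num)
  obtain ⟨M, hM⟩ : ∃ M, M = (18 - 2 * k) / 30 := ⟨_, rfl⟩
  have hM1 : 1 / 3 < M := by
    rw [hM, div_lt_div_iff₀ (by norm_num) (by norm_num)]
    linarith
  obtain ⟨ν, X₀, hν, hX₀, h⟩ := exc_prop K (|c| + 1) hM1
  refine ⟨ν, X₀, hν, hX₀, fun X hX S hS hS2 => h X hX S hS fun j hj hcon => ?_⟩
  obtain ⟨g0, g1, -⟩ := hS hj
  have hv := hS2 j hj (eMax j) (eMax_ne g0 g1) (eMax_j g0 g1)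
  have k2 := disc_max g0 g1
  have k3 := lc_max g0 g1
  have k4 := lc_nonneg _ (eMax_ne g0 g1)
  have k5 : κ * lc (eMax j) ≤ k * (2 * RR (zz j)) :=
    (mul_le_mul_of_nonneg_right hk1 k4).trans (mul_le_mul_of_nonneg_left k3 hk0)
  have k6 := le_abs_self c
  have k7 : 30 * hgt (zz j) ≤ (18 - 2 * k) * RR (zz j) - 30 * (|c| + 1) := by
    rw [hM] at hcon
    linarith
  have k8 := abs_nonneg c
  linarith

end Pool.Agent.Q19.JL
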