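import Pool.Agent.Q19.JL.Loc2
import Pool.Agent.Y729.FW.Cond

/-!
# The conductor, the minimal discriminant and the height of the elliptic curves with given modular
invariant in terms of the reduction of the invariant to `0`, `1728`, `∞`
-/

set_option autoImplicit false

namespace Pool.Agent.Q19.JL

open NumberField IsDedekindDomain Finset Pool.Agent.H691R3
open Pool.Agent.TH876.Loc (Pr Pt M df L one_le_M sp mem_sp hgt nn nn_pos nn_mono one_le_nn nn_union
  mx lg lg_one logHeight_le df_nonneg hgt_nonneg)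
open Pool.Agent.TH876.KR (df_inr df_int side side_sum mem_side side_sub df_eq_zero log_nn)
open Pool.Agent.TH876.FH (GoodAt IsPeriod faltings arch)
open Pool.Agent.Y733.FF (SemiAt IntAt discExp discSum multN addN mw aw mw_nonneg aw_nonneg good_int
  semi_disc disc_good disc_bound supp_mw supp_aw supp_disc log_multN log_addN bad_fin arch_le)

variable {K : Type} [Field K] [NumberField K]

open Classical in
/-- the sum of the logarithms of the norms of the primes of the point, outside six -/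
noncomputable def RR (x : K) : ℝ := Real.log (nn (sp x \ T6 K))

open Classical in
theorem RR_eq (x : K) : RR x = ∑ v ∈ sp x \ T6 K, Real.log (Nv v) := log_nn _

theorem ll_nonneg (v : Pr K) (i : Fin 3) (x : K) : 0 ≤ ll v i x := by
  unfold ll
  split_ifs
  · exact (log_Nv_pos v).le
  · exact le_rfl

theorem ll_le {x : K} (hx : Pt x) (v : Pr K) (i : Fin 3) : ll v i x ≤ df (Sum.inr v : Pl K) i x := by
  unfold ll
  split_ifs with h
  · obtain ⟨m, hm⟩ := df_int hx v i
    rw [hm] at h ⊢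
    have hl := log_Nv_pos v
    have h1 : 1 ≤ m := by
      rcases Nat.eq_zero_or_pos m with h0 | h0
      · rw [h0, Nat.cast_zero, zero_mul] at h
        exact absurd h (lt_irrefl _)
      · exact h0
    have h2 : (1 : ℝ) ≤ m := by exact_mod_cast h1
    nlinarith
  · exact df_nonneg _ i hx

open Classical in
theorem sum_df_le {x : K} (hx : Pt x) (i : Fin 3) (T : Finset (Pr K)) :
    ∑ v ∈ T, df (Sum.inr v : Pl K) i x + Pool.Agent.TH876.KR.aw i x ≤ hgt x := by
  rw [← side_sum hx i]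
  have h1 : ∑ v ∈ T, df (Sum.inr v : Pl K) i x ≤
      ∑ v ∈ T ∪ side i x, df (Sum.inr v : Pl K) i x :=
    Finset.sum_le_sum_of_subset_of_nonneg Finset.subset_union_left fun v _ _ => df_nonneg _ i hx
  have h2 : ∑ v ∈ side i x, df (Sum.inr v : Pl K) i x =
      ∑ v ∈ T ∪ side i x, df (Sum.inr v : Pl K) i x :=
    Finset.sum_subset Finset.subset_union_right fun v _ hv => df_eq_zero hx hv
  linarith

open Classical in
/-- the sums over the sides -/
noncomputable def AA (i : Fin 3) (x : K) : ℝ := ∑ v ∈ sp x \ T6 K, ll v i x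

open Classical in
noncomputable def DD (i : Fin 3) (x : K) : ℝ := ∑ v ∈ sp x \ T6 K, df (Sum.inr v : Pl K) i x

theorem AA_le_DD {x : K} (hx : Pt x) (i : Fin 3) : AA i x ≤ DD i x :=
  Finset.sum_le_sum fun v _ => ll_le hx v i

open Classical in
theorem DD_le {x : K} (hx : Pt x) (i : Fin 3) : DD i x ≤ hgt x := by
  have h1 := sum_df_le hx i (sp x \ T6 K)
  have h2 := Pool.Agent.TH876.KR.aw_nonneg hx i
  have h3 : DD i x = ∑ v ∈ sp x \ T6 K, df (Sum.inr v : Pl K) i x := rfl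
  linarith

theorem AA_le {x : K} (hx : Pt x) (i : Fin 3) : AA i x ≤ hgt x := (AA_le_DD hx i).trans (DD_le hx i)

open Classical in
theorem sum_AA {j : K} (h0 : j ≠ 0) (h1 : j ≠ 1728) :
    AA 0 (zz j) + AA 1 (zz j) + AA 2 (zz j) = RR (zz j) := by
  rw [RR_eq]
  unfold AA
  rw [← Finset.sum_add_distrib, ← Finset.sum_add_distrib]
  refine Finset.sum_congr rfl fun v hv => ?_
  rw [Finset.mem_sdiff, mem_sp (pt_zz h0 h1)] at hv
  obtain ⟨hv1, hv2⟩ := hv
  rcases cases4 hv2 h0 h1 with ⟨m, hm, a1, a2, a3, a4, a5⟩ | ⟨m, hm, a1, a2, a3, a4, a5⟩ |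
    ⟨m, hm, a1, a2, a3, a4, a5⟩ | ⟨a1, a2, a3, a4, a5⟩
  · rw [ll_zero a3, ll_pos hm a4, ll_zero a5]
    ring
  · rw [ll_pos hm a3, ll_zero a4, ll_zero a5]
    ring
  · rw [ll_zero a3, ll_zero a4, ll_pos hm a5]
    ring
  · exact absurd ⟨by rw [fv_zz hv2]; exact a1, by rw [fv_zz1 hv2]; exact a2⟩ hv1

theorem RR_nonneg (x : K) : 0 ≤ RR x := Real.log_nonneg (one_le_nn _)

theorem RR_le {j : K} (h0 : j ≠ 0) (h1 : j ≠ 1728) : RR (zz j) ≤ 3 * hgt (zz j) := by
  have hx := pt_zz h0 h1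
  rw [← sum_AA h0 h1]
  have := AA_le hx 0
  have := AA_le hx 1
  have := AA_le hx 2
  linarith

/-- the logarithm of the conductor outside six -/
noncomputable def lc (E : WeierstrassCurve K) : ℝ := Real.log (multN E) + Real.log (addN E)

theorem supp_cw (E : WeierstrassCurve K) (hE : E.Δ ≠ 0) :
    (Function.support fun v : Pr K => cw v E).Finite := by
  refine ((supp_mw E hE).union (supp_aw E hE)).subset ?_
  intro v hv
  rw [Function.mem_support] at hv
  by_contra hc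
  rw [Set.mem_union, not_or, Function.mem_support, Function.mem_support, not_not, not_not] at hc
  apply hv
  unfold cw
  rw [hc.1, hc.2]
  ring

theorem lc_eq (E : WeierstrassCurve K) (hE : E.Δ ≠ 0) : lc E = ∑ᶠ v : Pr K, cw v E := by
  unfold lc cw
  rw [log_multN E hE, log_addN E hE, mul_finsum,
    ← finsum_add_distrib (supp_mw E hE) (by
      refine (supp_aw E hE).subset ?_
      intro v hv
      rw [Function.mem_support] at hv ⊢
      intro h
      exact hv (by rw [h, mul_zero]))]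

open Classical in
/-- sums over a finite set containing the support -/
theorem fsum_eq {f : Pr K → ℝ} (V : Finset (Pr K)) (h : ∀ v, v ∉ V → f v = 0) :
    ∑ᶠ v : Pr K, f v = ∑ v ∈ V, f v := by
  refine finsum_eq_sum_of_support_subset _ ?_
  intro v hv
  rw [Function.mem_support] at hv
  by_contra hc
  exact hv (h v hc)

theorem fsum_ge {f : Pr K → ℝ} (hf : (Function.support f).Finite) (h0 : ∀ v, 0 ≤ f v)
    (V : Finset (Pr K)) : ∑ v ∈ V, f v ≤ ∑ᶠ v : Pr K, f v := by
  classical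
  rw [fsum_eq (V ∪ hf.toFinset) (by
    intro v hv
    rw [Finset.mem_union, not_or, Set.Finite.mem_toFinset, Function.mem_support, not_not] at hv
    exact hv.2)]
  exact Finset.sum_le_sum_of_subset_of_nonneg Finset.subset_union_left fun v _ _ => h0 v

open Classical in
/-- **the conductor of all curves** -/
theorem lc_ge {E : WeierstrassCurve K} (hE : E.Δ ≠ 0) {j : K} (hj : E.c₄ ^ 3 / E.Δ = j)
    (h0 : j ≠ 0) (h1 : j ≠ 1728) : 4 * RR (zz j) - 7 * hgt (zz j) ≤ lc E := by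
  subst hj
  have hx := pt_zz h0 h1
  rw [lc_eq E hE]
  refine le_trans ?_ (fsum_ge (supp_cw E hE) (fun v => cw_nonneg v E)
    (sp (zz (E.c₄ ^ 3 / E.Δ)) \ T6 K))
  have h2 : 4 * AA 0 (zz (E.c₄ ^ 3 / E.Δ)) - 2 * DD 0 (zz (E.c₄ ^ 3 / E.Δ)) +
      (4 * AA 2 (zz (E.c₄ ^ 3 / E.Δ)) - 2 * DD 2 (zz (E.c₄ ^ 3 / E.Δ))) +
      AA 1 (zz (E.c₄ ^ 3 / E.Δ)) ≤ ∑ v ∈ sp (zz (E.c₄ ^ 3 / E.Δ)) \ T6 K, cw v E := by
    unfold AA DD
    rw [Finset.mul_sum, Finset.mul_sum, Finset.mul_sum, Finset.mul_sum, ← Finset.sum_sub_distrib,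
      ← Finset.sum_sub_distrib, ← Finset.sum_add_distrib, ← Finset.sum_add_distrib]
    refine Finset.sum_le_sum fun v hv => ?_
    rw [Finset.mem_sdiff] at hv
    exact cond_loc hv.2 hE h0 h1
  refine le_trans ?_ h2
  have k1 := sum_AA h0 h1
  have k2 := DD_le hx 0
  have k3 := DD_le hx 2
  have k4 := AA_le hx 1
  linarith

theorem good_off {j : K} (h0 : j ≠ 0) (h1 : j ≠ 1728) {v : Pr K} (hv : v ∉ T6 K)
    (hs : v ∉ sp (zz j)) : fv v j = 1 ∧ fv v (j - 1728) = 1 := by
  rw [mem_sp (pt_zz h0 h1), not_not] at hs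
  rw [← fv_zz hv, ← fv_zz1 hv]
  exact hs

open Classical in
/-- **the conductor of the curve `eMin`** -/
theorem lc_min {j : K} (h0 : j ≠ 0) (h1 : j ≠ 1728) : lc (eMin j) ≤ 5 * hgt (zz j) := by
  have hx := pt_zz h0 h1
  rw [lc_eq _ (eMin_ne h0 h1), fsum_eq (sp (zz j) \ T6 K) (by
    intro v hv
    rw [Finset.mem_sdiff, not_and, not_not] at hv
    unfold cw
    by_cases hT : v ∈ T6 K
    · rw [(w_T hT _).1, (w_T hT _).2]
      ring
    · have hs : v ∉ sp (zz j) := fun h => hT (hv h)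
      obtain ⟨e1, e2⟩ := good_off h0 h1 hT hs
      rw [(w_good (eMin_good hT h0 e1 e2)).1, (w_good (eMin_good hT h0 e1 e2)).2]
      ring)]
  have h2 : ∑ v ∈ sp (zz j) \ T6 K, cw v (eMin j) ≤
      2 * AA 0 (zz j) + 2 * AA 2 (zz j) + AA 1 (zz j) := by
    unfold AA
    rw [Finset.mul_sum, Finset.mul_sum, ← Finset.sum_add_distrib, ← Finset.sum_add_distrib]
    refine Finset.sum_le_sum fun v hv => ?_
    rw [Finset.mem_sdiff] at hv
    exact eMin_loc hv.2 h0 h1
  have k0 := AA_le hx 0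
  have k1 := AA_le hx 1
  have k2 := AA_le hx 2
  linarith

open Classical in
theorem lc_max {j : K} (h0 : j ≠ 0) (h1 : j ≠ 1728) : lc (eMax j) ≤ 2 * RR (zz j) := by
  rw [lc_eq _ (eMax_ne h0 h1), fsum_eq (sp (zz j) \ T6 K) (by
    intro v hv
    rw [Finset.mem_sdiff, not_and, not_not] at hv
    unfold cw
    by_cases hT : v ∈ T6 K
    · rw [(w_T hT _).1, (w_T hT _).2]
      ring
    · have hs : v ∉ sp (zz j) := fun h => hT (hv h)
      obtain ⟨e1, e2⟩ := good_off h0 h1 hT hs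
      rw [(w_good (eMax_good hT e1 e2)).1, (w_good (eMax_good hT e1 e2)).2]
      ring)]
  rw [RR_eq, Finset.mul_sum]
  exact Finset.sum_le_sum fun v _ => cw_le v _

open Classical in
/-- **the minimal discriminant of the curve `eMax`** -/
theorem disc_max {j : K} (h0 : j ≠ 0) (h1 : j ≠ 1728) :
    18 * RR (zz j) - 30 * hgt (zz j) ≤ discSum (eMax j) := by
  have hx := pt_zz h0 h1
  have h3 : ∑ v ∈ sp (zz j) \ T6 K, (discExp v (eMax j) : ℝ) * Real.log (Nv v) ≤
      discSum (eMax j) := by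
    refine fsum_ge (supp_disc _ (eMax_ne h0 h1)) (fun v => ?_) _
    have := log_Nv_pos v
    positivity
  refine le_trans ?_ h3
  have h2 : 8 * (2 * AA 0 (zz j) - DD 0 (zz j)) + 9 * (2 * AA 2 (zz j) - DD 2 (zz j)) +
      7 * (2 * AA 1 (zz j) - DD 1 (zz j)) ≤
      ∑ v ∈ sp (zz j) \ T6 K, (discExp v (eMax j) : ℝ) * Real.log (Nv v) := by
    unfold AA DD
    rw [Finset.mul_sum, Finset.mul_sum, Finset.mul_sum, ← Finset.sum_sub_distrib,
      ← Finset.sum_sub_distrib, ← Finset.sum_sub_distrib, Finset.mul_sum, Finset.mul_sum,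
      Finset.mul_sum, ← Finset.sum_add_distrib, ← Finset.sum_add_distrib]
    refine Finset.sum_le_sum fun v hv => ?_
    rw [Finset.mem_sdiff] at hv
    exact eMax_loc hv.2 h0 h1
  refine le_trans ?_ h2
  have k1 := sum_AA h0 h1
  have k2 := DD_le hx 0
  have k3 := DD_le hx 1
  have k4 := DD_le hx 2
  have k5 := AA_le hx 0
  have k6 := AA_le hx 1
  linarith

/-- the constant of the primes above six -/
noncomputable def c6 (K : Type) [Field K] [NumberField K] : ℝ :=
  ∑ v ∈ T6 K, (10 * Real.log (Nv v) + 12 * (-Real.log (fv v (6 : K))))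

theorem fv_num_le (v : Pr K) (j : K) : fv v j ≤ fv v (zz j) := by
  unfold zz
  rw [(fv v).map_neg, map_div₀, le_div_iff₀ ((fv v).pos n1728)]
  have : fv v (1728 : K) ≤ 1 := by exact_mod_cast Pool.Agent.TH876.Loc.fv_natCast_le v 1728
  exact mul_le_of_le_one_right ((fv v).nonneg _) this

theorem pole_T (v : Pr K) {j : K} :
    Real.log (max (fv v j) 1) ≤ df (Sum.inr v : Pl K) 1 (zz j) := by
  rw [df_inr]
  have e1 : fv v (L 1 (zz j)) = 1 := map_one _
  rw [e1, Real.log_one, sub_zero]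
  refine Real.log_le_log (lt_of_lt_of_le one_pos (le_max_right _ _)) ?_
  refine max_le ((fv_num_le v j).trans ?_) (one_le_M _ _)
  exact Pool.Agent.TH876.Loc.av_L_le (Sum.inr v : Pl K) (zz j) 0

theorem arch_T (j : K) : ∑ w : InfinitePlace K, (w.mult : ℝ) * Real.log (max (w j) 1) ≤
    Pool.Agent.TH876.KR.aw 1 (zz j) + Module.finrank ℚ K * Real.log 1728 := by
  rw [← Pool.Agent.Y729.FW.sum_mult, Finset.sum_mul]
  unfold Pool.Agent.TH876.KR.aw
  rw [← Finset.sum_add_distrib]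
  refine Finset.sum_le_sum fun w _ => ?_
  have e : df (Sum.inl w : Pl K) 1 (zz j) =
      (w.mult : ℝ) * Real.log (M (Sum.inl w : Pl K) (zz j)) := by
    show (w.mult : ℝ) * Real.log (M (Sum.inl w : Pl K) (zz j)) -
      (w.mult : ℝ) * Real.log (Pool.Agent.TH876.Loc.av (Sum.inl w : Pl K) 1) = _
    rw [map_one, Real.log_one, mul_zero, sub_zero]
  rw [e, ← mul_add]
  apply mul_le_mul_of_nonneg_left _ (Nat.cast_nonneg _)
  have hM := one_le_M (Sum.inl w : Pl K) (zz j)
  have h0 : w (zz j) ≤ M (Sum.inl w : Pl K) (zz j) :=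
    Pool.Agent.TH876.Loc.av_L_le (Sum.inl w : Pl K) (zz j) 0
  have h2 : w (1728 : K) = 1728 := by
    have h3 : w ((1728 : ℕ) : K) = ((1728 : ℕ) : ℝ) := by
      rw [← InfinitePlace.norm_embedding_eq, map_natCast, Complex.norm_natCast]
    exact_mod_cast h3
  have h3 : w (zz j) * 1728 = w j := by
    have e3 : zz j * 1728 = -j := by
      unfold zz
      field_simp
    have e4 : w (zz j * 1728) = w (-j) := by rw [e3]
    rw [map_mul, h2] at e4
    exact e4.trans (w.1.map_neg j)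
  have hpos : 0 < M (Sum.inl w : Pl K) (zz j) := by linarith
  rw [← Real.log_mul hpos.ne' (by norm_num)]
  refine Real.log_le_log (lt_of_lt_of_le one_pos (le_max_right _ _)) (max_le ?_ ?_)
  · rw [← h3]
    exact mul_le_mul_of_nonneg_right h0 (by norm_num)
  · nlinarith

open Classical in
/-- **the minimal discriminant and the height of all curves** -/
theorem disc_all {E : WeierstrassCurve K} (hE : E.Δ ≠ 0) {j : K} (hj : E.c₄ ^ 3 / E.Δ = j)
    (h0 : j ≠ 0) (h1 : j ≠ 1728) :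
    discSum E + ∑ w : InfinitePlace K, (w.mult : ℝ) * Real.log (max (w j) 1) ≤
      4 * lc E + 6 * hgt (zz j) - 2 * RR (zz j) +
        (c6 K + Module.finrank ℚ K * Real.log 1728) := by
  subst hj
  have hx := pt_zz h0 h1
  obtain ⟨x, hxd⟩ : ∃ x, x = zz (E.c₄ ^ 3 / E.Δ) := ⟨_, rfl⟩
  rw [← hxd] at hx ⊢
  have hbad := bad_fin E hE
  obtain ⟨V, hV⟩ : ∃ V : Finset (Pr K), V = sp x ∪ T6 K ∪ hbad.toFinset := ⟨_, rfl⟩
  have hVs : sp x ⊆ V := by
    rw [hV]
    exact Finset.subset_union_left.trans Finset.subset_union_left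
  have hVT : T6 K ⊆ V := by
    rw [hV]
    exact Finset.subset_union_right.trans Finset.subset_union_left
  have hVg : ∀ v, v ∉ V → GoodAt v E := by
    intro v hv
    by_contra h
    apply hv
    rw [hV, Finset.mem_union]
    right
    rw [Set.Finite.mem_toFinset]
    exact h
  have e1 : discSum E = ∑ v ∈ V, (discExp v E : ℝ) * Real.log (Nv v) := by
    refine fsum_eq V fun v hv => ?_
    rw [disc_good v E (hVg v hv)]
    push_cast
    ring
  have e2 : lc E = ∑ v ∈ V, cw v E := by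
    rw [lc_eq E hE]
    refine fsum_eq V fun v hv => ?_
    unfold cw
    rw [(w_good (hVg v hv)).1, (w_good (hVg v hv)).2]
    ring
  have e3 : ∑ v ∈ V \ T6 K, cw v E ≤ lc E := by
    rw [e2]
    exact Finset.sum_le_sum_of_subset_of_nonneg Finset.sdiff_subset fun v _ _ => cw_nonneg v E
  have e4 : ∑ v ∈ V, (discExp v E : ℝ) * Real.log (Nv v) =
      ∑ v ∈ V \ T6 K, (discExp v E : ℝ) * Real.log (Nv v) +
        ∑ v ∈ T6 K, (discExp v E : ℝ) * Real.log (Nv v) := (Finset.sum_sdiff hVT).symm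
  -- outside six
  have f1 : ∑ v ∈ V \ T6 K, (discExp v E : ℝ) * Real.log (Nv v) ≤
      ∑ v ∈ V \ T6 K, (4 * cw v E + 2 * (df (Sum.inr v : Pl K) 0 x - ll v 0 x) +
        df (Sum.inr v : Pl K) 2 x + (df (Sum.inr v : Pl K) 1 x - 2 * ll v 1 x)) := by
    refine Finset.sum_le_sum fun v hv => ?_
    rw [Finset.mem_sdiff] at hv
    rw [hxd]
    exact disc_loc hv.2 hE h0 h1
  have zoff : ∀ i, ∀ v ∈ V \ T6 K, v ∉ sp x \ T6 K → df (Sum.inr v : Pl K) i x = 0 := by
    intro i v hv hv2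
    rw [Finset.mem_sdiff] at hv hv2
    refine df_eq_zero hx fun h => hv2 ⟨side_sub i x h, hv.2⟩
  have hsub : sp x \ T6 K ⊆ V \ T6 K := Finset.sdiff_subset_sdiff hVs le_rfl
  have g : ∀ i, ∑ v ∈ V \ T6 K, df (Sum.inr v : Pl K) i x = DD i x := fun i =>
    (Finset.sum_subset hsub (zoff i)).symm
  have g' : ∀ i, ∑ v ∈ V \ T6 K, ll v i x = AA i x := fun i =>
    (Finset.sum_subset hsub fun v hv hv2 => ll_zero (zoff i v hv hv2)).symm
  have f2 : ∑ v ∈ V \ T6 K, (4 * cw v E + 2 * (df (Sum.inr v : Pl K) 0 x - ll v 0 x) +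
        df (Sum.inr v : Pl K) 2 x + (df (Sum.inr v : Pl K) 1 x - 2 * ll v 1 x)) =
      4 * ∑ v ∈ V \ T6 K, cw v E + 2 * (DD 0 x - AA 0 x) + DD 2 x + (DD 1 x - 2 * AA 1 x) := by
    rw [← g 0, ← g 1, ← g 2, ← g' 0, ← g' 1, Finset.sum_add_distrib, Finset.sum_add_distrib,
      Finset.sum_add_distrib, ← Finset.mul_sum, ← Finset.mul_sum, Finset.sum_sub_distrib,
      Finset.sum_sub_distrib, ← Finset.mul_sum]
  -- above six
  have f3 : ∑ v ∈ T6 K, (discExp v E : ℝ) * Real.log (Nv v) ≤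
      ∑ v ∈ T6 K, df (Sum.inr v : Pl K) 1 x + c6 K := by
    unfold c6
    rw [← Finset.sum_add_distrib]
    refine Finset.sum_le_sum fun v _ => ?_
    have h2 := (disc_bound v E hE).1
    have h3 := pole_T v (j := E.c₄ ^ 3 / E.Δ)
    rw [← hxd] at h3
    linarith
  have f4 := sum_df_le hx 1 V
  have f5 : ∑ v ∈ V, df (Sum.inr v : Pl K) 1 x =
      DD 1 x + ∑ v ∈ T6 K, df (Sum.inr v : Pl K) 1 x := by
    rw [← g 1]
    exact (Finset.sum_sdiff hVT).symm
  have f6 := arch_T (E.c₄ ^ 3 / E.Δ)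
  rw [← hxd] at f6
  have f7 := DD_le hx 0
  have f8 := DD_le hx 2
  have f9 := AA_le hx 2
  have f10 := sum_AA h0 h1
  rw [← hxd] at f10
  rw [e1, e4]
  linarith

end Pool.Agent.Q19.JL
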