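import Pool.Agent.Q19.JL.Fin
import Pool.Agent.Y733.LS.Fin

/-!
# Lang and Silverman's lower bound for almost all invariants of all heights
-/

set_option autoImplicit false

namespace Pool.Agent.Q19.JL

open NumberField IsDedekindDomain Finset Pool.Agent.H691R3
open Pool.Agent.TH876.Loc (Pr Pt M df L one_le_M sp mem_sp hgt df_nonneg hgt_nonneg)
open Pool.Agent.TH876.KR (df_int)


variable {K : Type} [Field K] [NumberField K]

/-- the simple poles -/
theorem sp_loc {v : Pr K} (h : v ∉ T6 K) {j : K} (h0 : j ≠ 0) (h1 : j ≠ 1728)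
    [Decidable (Pool.Agent.Y733.LS.Sp j v)] :
    2 * ll v 1 (zz j) - df (Sum.inr v : Pl K) 1 (zz j) ≤
      if Pool.Agent.Y733.LS.Sp j v then Real.log (Nv v) else 0 := by
  have hl := log_Nv_pos v
  have hnn : 0 ≤ (if Pool.Agent.Y733.LS.Sp j v then Real.log (Nv v) else 0) := by
    split_ifs <;> linarith
  rcases cases4 h h0 h1 with ⟨m, hm, a1, a2, a3, a4, a5⟩ | ⟨m, hm, a1, a2, a3, a4, a5⟩ |
    ⟨m, hm, a1, a2, a3, a4, a5⟩ | ⟨a1, a2, a3, a4, a5⟩
  · rw [ll_pos hm a4, a4]
    rcases Nat.lt_or_ge 1 m with h2 | h2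
    · have h3 : (2 : ℝ) ≤ m := by exact_mod_cast h2
      nlinarith
    · have h3 : m = 1 := by omega
      have hsp : Pool.Agent.Y733.LS.Sp j v := by
        refine ⟨(fv23 h).1, (fv23 h).2, ?_⟩
        rw [h3, Nat.cast_one, one_mul] at a1
        exact Real.log_injOn_pos (Set.mem_Ioi.2 ((fv v).pos h0))
          (Set.mem_Ioi.2 (lt_trans one_pos (Pool.Agent.W223.AK.Nv_one_lt v))) a1
      rw [if_pos hsp, h3]
      push_cast
      linarith
  · rw [ll_zero a4, a4]
    linarith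
  · rw [ll_zero a4, a4]
    linarith
  · rw [ll_zero a4, a4]
    linarith

open Classical in
theorem sp_ge {j : K} (h0 : j ≠ 0) (h1 : j ≠ 1728) :
    2 * RR (zz j) - 5 * hgt (zz j) ≤ Pool.Agent.Y733.LS.sp j := by
  have hx := pt_zz h0 h1
  have h2 : 2 * AA 1 (zz j) - DD 1 (zz j) ≤ Pool.Agent.Y733.LS.sp j := by
    unfold AA DD Pool.Agent.Y733.LS.sp
    rw [Finset.mul_sum, ← Finset.sum_sub_distrib]
    refine le_trans (Finset.sum_le_sum fun v hv => ?_)
      (fsum_ge (Pool.Agent.Y733.LS.Fs_sp j) (fun v => ?_) (sp (zz j) \ T6 K))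
    · rw [Finset.mem_sdiff] at hv
      exact sp_loc hv.2 h0 h1
    · have hl := log_Nv_pos v
      split_ifs <;> linarith
  have h3 := sum_AA h0 h1
  have h4 := AA_le hx 0
  have h5 := AA_le hx 2
  have h6 := DD_le hx 1
  linarith

/-- the invariants of the curves with a point of order two: triple zeros -/
theorem two_loc {v : Pr K} (h : v ∉ T6 K) {j : K} (h0 : j ≠ 0) (h1 : j ≠ 1728)
    (h2 : Pool.Agent.Y733.LS.Two j) :
    3 * ll v 0 (zz j) ≤ df (Sum.inr v : Pl K) 0 (zz j) := by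
  have hl := log_Nv_pos v
  rcases cases4 h h0 h1 with ⟨m, hm, a1, a2, a3, a4, a5⟩ | ⟨m, hm, a1, a2, a3, a4, a5⟩ |
    ⟨m, hm, a1, a2, a3, a4, a5⟩ | ⟨a1, a2, a3, a4, a5⟩
  · rw [ll_zero a3, a3]
    linarith
  · rw [ll_pos hm a3, a3]
    obtain ⟨α, hα0, hα1, hD, hj⟩ := h2
    have f23 := fv23 h
    have hjlt : fv v j < 1 := by
      have hjp : 0 < fv v j := (fv v).pos h0
      by_contra hcon
      have := Real.log_nonneg (not_lt.1 hcon)
      have hm' : (0 : ℝ) < m := by exact_mod_cast hm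
      nlinarith
    have hj' : fv v j * fv v ((α + 3) ^ 2 * (4 * α + 3)) = fv v α ^ 3 := by
      rw [← map_mul, hj]
      unfold Pool.Agent.Y733.LS.jt
      rw [div_mul_cancel₀ _ hD, map_mul, map_pow]
      have : fv v (6912 : K) = 1 := by
        have e : (6912 : K) = 2 ^ 8 * 3 ^ 3 := by norm_num
        rw [e, map_mul, map_pow, map_pow, f23.1, f23.2, one_pow, one_pow, one_mul]
      rw [this, one_mul]
    have f4 : fv v (4 : K) = 1 := by
      have e : (4 : K) = 2 ^ 2 := by norm_num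
      rw [e, map_pow, f23.1, one_pow]
    have hαp : 0 < fv v α := (fv v).pos hα0
    -- `α` is a non-unit
    have hαlt : fv v α < 1 := by
      by_contra hcon
      rw [not_lt] at hcon
      rcases hcon.lt_or_eq with hc | hc
      · -- `|α| > 1`
        have b1 : fv v (α + 3) = fv v α := by
          refine le_antisymm ((fv_na v α 3).trans ?_) ?_
          · rw [f23.2]
            exact max_le le_rfl hc.le
          · have := na_sub v (α + 3) 3
            rw [add_sub_cancel_right, f23.2] at this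
            rcases le_max_iff.1 this with h3 | h3
            · exact h3
            · linarith
        have b2 : fv v (4 * α + 3) = fv v α := by
          have e4 : fv v (4 * α) = fv v α := by rw [map_mul, f4, one_mul]
          refine le_antisymm ((fv_na v (4 * α) 3).trans ?_) ?_
          · rw [f23.2, e4]
            exact max_le le_rfl hc.le
          · have := na_sub v (4 * α + 3) 3
            rw [add_sub_cancel_right, f23.2, e4] at this
            rcases le_max_iff.1 this with h3 | h3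
            · exact h3
            · linarith
        rw [map_mul, map_pow, b1, b2] at hj'
        have e3 : fv v α ^ 2 * fv v α = fv v α ^ 3 := by ring
        rw [e3] at hj'
        have e5 : fv v j * fv v α ^ 3 = 1 * fv v α ^ 3 := by rw [one_mul]; exact hj'
        have := mul_right_cancel₀ (by positivity) e5
        linarith
      · -- `|α| = 1`
        have b1 : fv v (α + 3) ≤ 1 := (fv_na v α 3).trans (by rw [f23.2, ← hc, max_self])
        have b2 : fv v (4 * α + 3) ≤ 1 :=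
          (fv_na v (4 * α) 3).trans (by rw [f23.2, map_mul, f4, ← hc, one_mul, max_self])
        have b3 : fv v ((α + 3) ^ 2 * (4 * α + 3)) ≤ 1 := by
          rw [map_mul, map_pow]
          exact mul_le_one₀ (pow_le_one₀ (apply_nonneg _ _) b1) (apply_nonneg _ _) b2
        rw [← hc, one_pow] at hj'
        have b4 : 0 ≤ fv v ((α + 3) ^ 2 * (4 * α + 3)) := apply_nonneg _ _
        have b5 : 0 < fv v j := (fv v).pos h0
        nlinarith
    have b1 : fv v (α + 3) = 1 := by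
      refine le_antisymm ((fv_na v α 3).trans (by rw [f23.2, max_eq_right hαlt.le])) ?_
      have := na_sub v (α + 3) α
      rw [add_sub_cancel_left, f23.2] at this
      rcases le_max_iff.1 this with h3 | h3
      · exact h3
      · linarith
    have b2 : fv v (4 * α + 3) = 1 := by
      have e4 : fv v (4 * α) = fv v α := by rw [map_mul, f4, one_mul]
      refine le_antisymm ((fv_na v (4 * α) 3).trans (by rw [f23.2, e4, max_eq_right hαlt.le])) ?_
      have := na_sub v (4 * α + 3) (4 * α)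
      rw [add_sub_cancel_left, f23.2, e4] at this
      rcases le_max_iff.1 this with h3 | h3
      · exact h3
      · linarith
    rw [map_mul, map_pow, b1, b2, one_pow, one_mul, mul_one] at hj'
    obtain ⟨k, hk⟩ := log_fv_int v hα0
    have h3 : Real.log (fv v j) = 3 * Real.log (fv v α) := by
      rw [hj', Real.log_pow]
      push_cast
      ring
    rw [a1, hk] at h3
    have h4 : ((m : ℤ) : ℝ) * Real.log (Nv v) = ((-(3 * k) : ℤ) : ℝ) * Real.log (Nv v) := by
      push_cast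
      linarith
    have h5 := int_of_log v h4
    have h6 : (3 : ℤ) ≤ m := by omega
    have h7 : (3 : ℝ) ≤ m := by exact_mod_cast h6
    nlinarith
  · rw [ll_zero a3, a3]
    linarith
  · rw [ll_zero a3, a3]
    linarith

open Classical in
theorem two_RR {j : K} (h0 : j ≠ 0) (h1 : j ≠ 1728) (h2 : Pool.Agent.Y733.LS.Two j) :
    3 * RR (zz j) ≤ 7 * hgt (zz j) := by
  have hx := pt_zz h0 h1
  have h3 : 3 * AA 0 (zz j) ≤ DD 0 (zz j) := by
    unfold AA DD
    rw [Finset.mul_sum]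
    refine Finset.sum_le_sum fun v hv => ?_
    rw [Finset.mem_sdiff] at hv
    exact two_loc hv.2 h0 h1 h2
  have h4 := sum_AA h0 h1
  have h5 := AA_le hx 1
  have h6 := AA_le hx 2
  have h7 := DD_le hx 0
  linarith

open Pool.Agent.Y733.LS (LSP Two C3 C4 lsp_of logHeight_eq ht_eq_Sa)
open Pool.Agent.W223.AK (ht)

theorem ht_log (j : K) : Height.logHeight₁ j = ht j := by
  rw [logHeight_eq, ht_eq_Sa]

/-- the conditions of the lower bound -/
theorem ls_good (K : Type) [Field K] [NumberField K] (η N : ℝ) (hη0 : 0 < η) (hη : η < 1 / 2) :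
    ∃ A M : ℝ, 1 / 3 < M ∧ ∀ j : K, j ≠ 0 → j ≠ 1728 → hgt (zz j) ≤ M * RR (zz j) - A →
      ¬ Two j ∧ (1 - η) * ht j ≤ Pool.Agent.Y733.LS.sp j ∧ N ≤ ht j := by
  obtain ⟨c, hc⟩ : ∃ c, c = Height.logHeight₁ (1728 : K) +
    (Height.logHeight₁ (1728 : K) + Module.finrank ℚ K * Real.log 2) + |N| + 1 := ⟨_, rfl⟩
  have hl2 : 0 ≤ Real.log 2 := Real.log_nonneg (by norm_num)
  have hc1 : 0 ≤ Height.logHeight₁ (1728 : K) := Height.zero_le_logHeight₁ _
  have hn : (0 : ℝ) ≤ Module.finrank ℚ K * Real.log 2 := by positivity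
  have hN := abs_nonneg N
  have hc0 : 1 ≤ c := by rw [hc]; linarith
  refine ⟨c, 2 / (6 - η), ?_, fun j h0 h1 hcon => ?_⟩
  · rw [div_lt_div_iff₀ (by norm_num) (by linarith)]
    linarith
  have hH := hgt_nonneg (zz j)
  have hR := RR_nonneg (zz j)
  have hR3 := RR_le h0 h1
  have k1 : (6 - η) * hgt (zz j) ≤ 2 * RR (zz j) - (6 - η) * c := by
    have h2 : 0 < 6 - η := by linarith
    have h3 := mul_le_mul_of_nonneg_left hcon h2.le
    have h4 : (6 - η) * (2 / (6 - η) * RR (zz j) - c) = 2 * RR (zz j) - (6 - η) * c := by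
      field_simp
    linarith
  have k2 : c ≤ (6 - η) * c := by nlinarith
  have k3 : c ≤ hgt (zz j) := by nlinarith
  have k4 := ht_two j h0 h1
  have k5 := ht_one j h0 h1
  rw [ht_log] at k4 k5
  refine ⟨fun h2 => ?_, ?_, ?_⟩
  · have := two_RR h0 h1 h2
    nlinarith
  · have h3 := sp_ge h0 h1
    have h4 : (1 - η) * ht j ≤ (1 - η) * (hgt (zz j) + c) :=
      mul_le_mul_of_nonneg_left (by rw [hc]; linarith) (by linarith)
    nlinarith
  · have := le_abs_self N
    rw [hc] at k3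
    linarith

/-- **the lower bound of Lang and Silverman with an absolute constant, all heights** -/
theorem ls_prop (K : Type) [Field K] [NumberField K] (η N : ℝ) (hη0 : 0 < η) (hη : η < 1 / 2) :
    ∃ ν X₀ : ℝ, 0 < ν ∧ 1 ≤ X₀ ∧ ∀ X : ℝ, X₀ ≤ X → ∀ S : Set K, S ⊆ Iv K X →
      (∀ j ∈ S, ¬ (LSP ((1 - 2 * η) / 100) j ∧ ¬ Two j ∧
        (1 - η) * ht j ≤ Pool.Agent.Y733.LS.sp j ∧ N ≤ ht j)) →
      ((S.ncard : ℕ) : ℝ) ≤ X ^ (-ν) * (Iv K X).ncard := by
  obtain ⟨A, M, hM, h⟩ := ls_good K η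
    (max N (Module.finrank ℚ K * (600 * (C3 + 1 + C4) / (1 - 2 * η)))) hη0 hη
  obtain ⟨ν, X₀, hν, hX₀, h2⟩ := exc_prop K A hM
  refine ⟨ν, X₀, hν, hX₀, fun X hX S hS hS2 => h2 X hX S hS fun j hj hcon => hS2 j hj ?_⟩
  obtain ⟨g0, g1, -⟩ := hS hj
  obtain ⟨k1, k2, k3⟩ := h j g0 g1 hcon
  exact ⟨lsp_of g0 g1 k1 hη0.le hη k2 ((le_max_right _ _).trans k3), k1, k2,
    (le_max_left _ _).trans k3⟩

open Classical in
/-- the explicit lower bound with the ramified twists -/
def Slp (ε : ℝ) (j : K) : Prop := ∀ a b : K, Pool.Agent.Y733.LS.dl a b ≠ 0 →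
  Pool.Agent.Y733.LS.jj a b = j → ∀ T : Finset (Pr K),
    (∀ v ∈ T, Pool.Agent.Y733.LS.GainAt a b v) → ∀ P : Pool.Agent.TH942.SPt a b, P ≠ 0 →
      (1 / 24 - ε) * ht j + 1 / 4 * ∑ v ∈ T, Real.log (Nv v) ≤ Pool.Agent.TH910.LS.chat P

theorem slp_of {j : K} (h0 : j ≠ 0) (h1 : j ≠ 1728) (h2 : ¬ Two j) {η : ℝ} (hη0 : 0 < η)
    (hsp : (1 - η) * ht j ≤ Pool.Agent.Y733.LS.sp j)
    (hht : Module.finrank ℚ K * (2 * C3 / η) ≤ ht j) : Slp η j := by
  classical
  intro a b hD hj T hT P hP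
  have ha : a ≠ 0 := by
    rintro rfl
    apply h0
    rw [← hj]
    unfold Pool.Agent.Y733.LS.jj
    simp
  have hb : b ≠ 0 := by
    rintro rfl
    apply h1
    have h3 := Pool.Agent.Y733.LS.jj_sub a 0 hD
    rw [hj] at h3
    have h4 : j - 1728 = 0 := by rw [h3]; simp
    linear_combination h4
  subst hj
  have h3 := Pool.Agent.Y733.LS.chat_ge ha hb hD P
    (Pool.Agent.Y733.LS.no_two ha hb hD h2 hP) T hT
  have h4 : (Module.finrank ℚ K : ℝ) * C3 ≤ η / 2 * ht (Pool.Agent.Y733.LS.jj a b) := by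
    have h5 := mul_le_mul_of_nonneg_left hht (show 0 ≤ η / 2 by positivity)
    have h6 : η / 2 * (Module.finrank ℚ K * (2 * C3 / η)) = Module.finrank ℚ K * C3 := by
      field_simp
    linarith
  have h5 : 0 ≤ ht (Pool.Agent.Y733.LS.jj a b) := by
    rw [← ht_log]
    exact Height.zero_le_logHeight₁ _
  nlinarith

/-- **the explicit lower bound for almost all invariants** -/
theorem slp_prop (K : Type) [Field K] [NumberField K] (η : ℝ) (hη0 : 0 < η) (hη : η < 1 / 2) :
    ∃ ν X₀ : ℝ, 0 < ν ∧ 1 ≤ X₀ ∧ ∀ X : ℝ, X₀ ≤ X → ∀ S : Set K, S ⊆ Iv K X →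
      (∀ j ∈ S, ¬ (LSP ((1 - 2 * η) / 100) j ∧ Slp η j)) →
      ((S.ncard : ℕ) : ℝ) ≤ X ^ (-ν) * (Iv K X).ncard := by
  obtain ⟨ν, X₀, hν, hX₀, h⟩ := ls_prop K η (Module.finrank ℚ K * (2 * C3 / η)) hη0 hη
  refine ⟨ν, X₀, hν, hX₀, fun X hX S hS hS2 => h X hX S hS fun j hj hcon => hS2 j hj ?_⟩
  obtain ⟨g0, g1, -⟩ := hS hj
  obtain ⟨k1, k2, k3, k4⟩ := hcon
  exact ⟨k1, slp_of g0 g1 k2 hη0 k3 k4⟩

end Pool.Agent.Q19.JL
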