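import Pool.Agent.Q19.JL.Fin2
import Pool.Agent.Q19.JL.LS
import Pool.Agent.Y733.FF.Str

/-!
# The canonical height against the relative Faltings height, with the explicit constant `1 / 48`
-/

set_option autoImplicit false

namespace Pool.Agent.Q19.JL

open NumberField IsDedekindDomain Finset Pool.Agent.H691R3
open Pool.Agent.TH876.Loc (Pr Pt M df L one_le_M sp mem_sp hgt df_nonneg hgt_nonneg)
open Pool.Agent.Y733.LS (BadAt GainAt dl jj jj_eq jj_sub w_jj w_jj_sub exists_fv C3 C4 Two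
  all_powers)
open Pool.Agent.TH942 (SPt sw)
open Pool.Agent.TH910.LS (chat chatM)
open Pool.Agent.W223.AK (ht)
open Pool.Agent.TH876.FH (GoodAt IsPeriod arch)
open Pool.Agent.Y733.FF (SemiAt discSum aw mw supp_aw supp_mw bad_of_add sw_Δ sw_j)

variable {K : Type} [Field K] [NumberField K]

/-- at a bad prime where `j` and `j - 1728` are units the curve is a ramified twist of a curve of
good reduction -/
theorem gain_of {a b : K} (ha : a ≠ 0) (hb : b ≠ 0) (hD : dl a b ≠ 0) {v : Pr K} (hv : v ∉ T6 K)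
    (h4 : fv v (jj a b) = 1) (h5 : fv v (jj a b - 1728) = 1) (hB : BadAt a b v) :
    GainAt a b v := by
  obtain ⟨h2, h3⟩ := fv23 hv
  have n6912 : fv v (6912 : K) = 1 := by
    have : (6912 : K) = 2 ^ 8 * 3 ^ 3 := by norm_num
    rw [this, map_mul, map_pow, map_pow, h2, h3]
    norm_num
  have n46656 : fv v (46656 : K) = 1 := by
    have : (46656 : K) = 2 ^ 6 * 3 ^ 6 := by norm_num
    rw [this, map_mul, map_pow, map_pow, h2, h3]
    norm_num
  have hd : 0 < fv v (dl a b) := (fv v).pos hD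
  have e1 : fv v a ^ 3 = fv v (dl a b) := by
    have := w_jj (fv v) a b
    rw [h4, n6912, one_mul] at this
    field_simp at this
    exact this.symm
  have e2 : fv v b ^ 2 = fv v (dl a b) := by
    have := w_jj_sub (fv v) a b hD
    rw [h5, n46656, one_mul] at this
    field_simp at this
    exact this.symm
  refine ⟨h2, by rw [e1, e2], e2.symm, ?_⟩
  obtain ⟨k, hk⟩ := fv_zpow v (div_ne_zero hb ha)
  refine ⟨k, ?_, hk⟩
  rcases hB with h6 | h6
  · by_contra hodd
    rw [Int.not_odd_iff_even] at hodd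
    obtain ⟨m, hm⟩ := hodd
    obtain ⟨u, hu⟩ := exists_fv v m
    apply h6 u
    have ha0 : 0 < fv v a := (fv v).pos ha
    have e3 : fv v a = fv v (b / a) ^ 2 := by
      rw [map_div₀, div_pow, e2, ← e1]
      field_simp
    rw [← e1, e3, hk, hu, hm, ← pow_mul, ← zpow_natCast, ← zpow_natCast, ← zpow_mul, ← zpow_mul]
    congr 1
    push_cast
    ring
  · rw [h4] at h6
    exact absurd h6 (lt_irrefl _)

open Classical in
/-- **the conductor and the ramified twists** -/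
theorem lc_le {a b : K} (hD : dl a b ≠ 0) (h0 : jj a b ≠ 0) (h1 : jj a b ≠ 1728) :
    ∃ T : Finset (Pr K), (∀ v ∈ T, GainAt a b v) ∧
      lc (sw a b) ≤ 2 * RR (zz (jj a b)) + 2 * ∑ v ∈ T, Real.log (Nv v) := by
  have ha : a ≠ 0 := by
    rintro rfl
    apply h0
    unfold jj
    simp
  have hb : b ≠ 0 := by
    rintro rfl
    apply h1
    have h3 := jj_sub a 0 hD
    have h4 : jj a 0 - 1728 = 0 := by rw [h3]; simp
    linear_combination h4
  have hE : (sw a b).Δ ≠ 0 := by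
    rw [sw_Δ]
    exact mul_ne_zero (by norm_num) hD
  obtain ⟨V, hV⟩ : ∃ V, V = (supp_cw (sw a b) hE).toFinset := ⟨_, rfl⟩
  obtain ⟨W, hW⟩ : ∃ W, W = sp (zz (jj a b)) \ T6 K := ⟨_, rfl⟩
  have hsum : lc (sw a b) = ∑ v ∈ V ∪ W, cw v (sw a b) := by
    rw [lc_eq _ hE]
    refine fsum_eq _ fun v hv => ?_
    rw [Finset.mem_union, not_or, hV, Set.Finite.mem_toFinset, Function.mem_support, not_not] at hv
    exact hv.1
  have hsub : V ∪ W = W ∪ (V \ W) := by
    ext v
    simp only [Finset.mem_union, Finset.mem_sdiff]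
    tauto
  have hdis : Disjoint W (V \ W) := Finset.disjoint_sdiff
  refine ⟨V \ W, fun v hv => ?_, ?_⟩
  · rw [Finset.mem_sdiff, hV, Set.Finite.mem_toFinset, Function.mem_support, hW,
      Finset.mem_sdiff, not_and, not_not] at hv
    obtain ⟨hv1, hv2⟩ := hv
    have hT : v ∉ T6 K := by
      intro hT
      apply hv1
      unfold cw
      rw [(w_T hT _).1, (w_T hT _).2]
      ring
    have hs : v ∉ sp (zz (jj a b)) := fun h => hT (hv2 h)
    obtain ⟨u1, u2⟩ := good_off h0 h1 hT hs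
    refine gain_of ha hb hD hT u1 u2 (bad_of_add hD v ⟨fun hsemi => hv1 ?_, v6 hT⟩)
    have hgood : GoodAt v (sw a b) := by
      refine good_of_semi hE hsemi ?_
      rw [sw_j a b hD]
      exact u1.le
    unfold cw
    rw [(w_good hgood).1, (w_good hgood).2]
    ring
  · rw [hsum, hsub, Finset.sum_union hdis, RR_eq, ← hW, Finset.mul_sum, Finset.mul_sum]
    exact add_le_add (Finset.sum_le_sum fun v _ => cw_le v _)
      (Finset.sum_le_sum fun v _ => cw_le v _)

open Classical in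
/-- the strong bound with the relative Faltings height -/
def StrP (c : ℝ) (j : K) : Prop := ∀ (a b : K) (τ : InfinitePlace K → UpperHalfPlane),
  dl a b ≠ 0 → jj a b = j → IsPeriod (jj a b) τ → ∀ (g : ℕ) (M : Matrix (Fin g) (Fin g) ℤ),
    (M.map (Int.cast : ℤ → ℝ)).PosDef → ∀ P : Fin g → SPt a b, P ≠ 0 →
      c * max ((discSum (sw a b) + ∑ w : InfinitePlace K, (w.mult : ℝ) * arch (τ w)) /
        (12 * Module.finrank ℚ K)) 1 * Module.finrank ℚ K ≤ chatM M P

theorem str_prop (K : Type) [Field K] [NumberField K] (ε : ℝ) (hε : 0 < ε) :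
    ∃ ν X₀ : ℝ, 0 < ν ∧ 1 ≤ X₀ ∧ ∀ X : ℝ, X₀ ≤ X → ∀ S : Set K, S ⊆ Iv K X →
      (∀ j ∈ S, ¬ StrP (1 / 48 - ε) j) →
      ((S.ncard : ℕ) : ℝ) ≤ X ^ (-ν) * (Iv K X).ncard := by
  classical
  obtain ⟨c1, hc1, harch⟩ := Pool.Agent.Y733.FF.arch_le
  obtain ⟨n, hn⟩ : ∃ n : ℝ, n = Module.finrank ℚ K := ⟨_, rfl⟩
  have hn1 : 0 < n := by
    rw [hn]
    exact_mod_cast Module.finrank_pos (R := ℚ) (M := K)
  obtain ⟨e, he⟩ : ∃ e, e = min ε (1 / 96) := ⟨_, rfl⟩
  have he0 : 0 < e := by rw [he]; exact lt_min hε (by norm_num)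
  have he1 : e ≤ ε := by rw [he]; exact min_le_left _ _
  have he2 : e ≤ 1 / 96 := by rw [he]; exact min_le_right _ _
  obtain ⟨c, hc⟩ : ∃ c : ℝ, c = 1 / 48 - e := ⟨_, rfl⟩
  have hc0 : 0 < c := by rw [hc]; linarith
  obtain ⟨d, hd⟩ : ∃ d, d = Height.logHeight₁ (1728 : K) + n * Real.log 2 := ⟨_, rfl⟩
  have hl2 : 0 ≤ Real.log 2 := Real.log_nonneg (by norm_num)
  have hl : 0 ≤ Real.log 1728 := Real.log_nonneg (by norm_num)
  have hd0 : 0 ≤ d := by
    have : 0 ≤ Height.logHeight₁ (1728 : K) := Height.zero_le_logHeight₁ _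
    rw [hd]
    positivity
  obtain ⟨C, hC⟩ : ∃ C, C = |c6 K| + n * Real.log 1728 + c1 * n := ⟨_, rfl⟩
  have hC0 : 0 ≤ C := by rw [hC]; positivity
  obtain ⟨ν, X₀, hν, hX₀, h⟩ := ls_prop K e
    (max (n * (2 * C3 / e)) (max n ((d + C) / e))) he0 (by linarith)
  refine ⟨ν, X₀, hν, hX₀, fun X hX S hS hS2 => h X hX S hS fun j hj hcon => hS2 j hj ?_⟩
  obtain ⟨g0, g1, -⟩ := hS hj
  obtain ⟨-, k2, k3, k4⟩ := hcon
  have k5 : n * (2 * C3 / e) ≤ ht j := (le_max_left _ _).trans k4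
  have k6 : n ≤ ht j := ((le_max_left _ _).trans (le_max_right _ _)).trans k4
  have k7 : (d + C) / e ≤ ht j := ((le_max_right _ _).trans (le_max_right _ _)).trans k4
  rw [div_le_iff₀ he0] at k7
  rw [hn] at k5
  have hslp := slp_of g0 g1 k2 he0 k3 k5
  intro a b τ hD hjj hτ g M hM P hP
  subst hjj
  obtain ⟨T, hT, hlc⟩ := lc_le hD g0 g1
  have hE : (sw a b).Δ ≠ 0 := by
    rw [sw_Δ]
    exact mul_ne_zero (by norm_num) hD
  have m1 := disc_all hE (sw_j a b hD) g0 g1
  have m2 := harch K _ τ hτ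
  have m3 := RR_le g0 g1
  have m4 := ht_two (jj a b) g0 g1
  rw [ht_log] at m4
  rw [← hn] at m1 m2 m4
  have hTs : 0 ≤ ∑ v ∈ T, Real.log (Nv v) := Finset.sum_nonneg fun v _ => (log_Nv_pos v).le
  obtain ⟨F, hF⟩ : ∃ F, F = discSum (sw a b) +
    ∑ w : InfinitePlace K, (w.mult : ℝ) * arch (τ w) := ⟨_, rfl⟩
  have m5 : F ≤ 24 * (ht (jj a b) + d) + 8 * ∑ v ∈ T, Real.log (Nv v) + C := by
    have := le_abs_self (c6 K)
    rw [hF, hC]
    rw [← hd] at m4
    linarith
  have key : ∀ Q : SPt a b, Q ≠ 0 → c * max (F / (12 * n)) 1 * n ≤ chat Q := by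
    intro Q hQ
    have m6 := hslp a b hD rfl T hT Q hQ
    have m7 : (1 / 24 - e) * ht (jj a b) + 1 / 4 * ∑ v ∈ T, Real.log (Nv v) ≤ chat Q := m6
    rcases le_total (F / (12 * n)) 1 with h8 | h8
    · rw [max_eq_right h8, mul_one]
      have : c * n ≤ (1 / 24 - e) * ht (jj a b) := by
        rw [hc]
        nlinarith
      linarith
    · rw [max_eq_left h8]
      have h9 : c * (F / (12 * n)) * n = c / 12 * F := by
        field_simp
      rw [h9]
      have h10 : c / 12 * F ≤ c / 12 * (24 * (ht (jj a b) + d) +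
          8 * ∑ v ∈ T, Real.log (Nv v) + C) := mul_le_mul_of_nonneg_left m5 (by positivity)
      have h11 : c / 12 * (24 * (ht (jj a b) + d) + 8 * ∑ v ∈ T, Real.log (Nv v) + C) =
          (1 / 24 - 2 * e) * ht (jj a b) + 2 * c * d + 2 * c / 3 * ∑ v ∈ T, Real.log (Nv v) +
            c / 12 * C := by
        rw [hc]
        ring
      have h12 : 2 * c * d ≤ d := mul_le_of_le_one_left hd0 (by rw [hc]; linarith)
      have h13 : c / 12 * C ≤ C := mul_le_of_le_one_left hC0 (by rw [hc]; linarith)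
      have h14 : 2 * c / 3 * ∑ v ∈ T, Real.log (Nv v) ≤ 1 / 4 * ∑ v ∈ T, Real.log (Nv v) :=
        mul_le_mul_of_nonneg_right (by rw [hc]; linarith) hTs
      linarith
  have hpos : 0 < c * max (F / (12 * n)) 1 * n :=
    mul_pos (mul_pos hc0 (lt_max_of_lt_right one_pos)) hn1
  have hfin := all_powers hD hpos key M hM hP
  rw [← hF, ← hn]
  refine le_trans ?_ hfin
  have h15 : 0 ≤ max (F / (12 * n)) 1 := le_trans zero_le_one (le_max_right _ _)
  exact mul_le_mul_of_nonneg_right (mul_le_mul_of_nonneg_right (by rw [hc]; linarith) h15) hn1.le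

end Pool.Agent.Q19.JL
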