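import Mathlib
import Pool.Agent.Y733.FF.Main
import Pool.Agent.TH876.KR.Def

/-!
# The conductor and the minimal discriminant of the elliptic curves of given modular invariant at one
prime, in terms of the reduction of the invariant to `0`, `1728`, `∞`
-/

set_option autoImplicit false

namespace Pool.Agent.Q19.JL

open NumberField IsDedekindDomain Finset Pool.Agent.H691R3
open Pool.Agent.TH876.Loc (Pr Pt M df L one_le_M)
open Pool.Agent.TH876.KR (df_inr df_int)
open Pool.Agent.TH876.FH (GoodAt)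
open Pool.Agent.Y733.FF (SemiAt IntAt discExp mw aw mw_nonneg aw_nonneg good_int semi_disc disc_good
  disc_bound disc_k short j_change disc_ne fv_one_iff fv_le_one_iff val_exp int_disc fv_exp
  exists_k c46 semi_of_good)

variable {K : Type} [Field K] [NumberField K]

/-- the primes above six -/
noncomputable def T6 (K : Type) [Field K] [NumberField K] : Finset (Pr K) :=
  (Pool.Agent.H691R3.fv_support_finite (K := K) (show (6 : K) ≠ 0 by norm_num)).toFinset

theorem mem_T6 (v : Pr K) : v ∈ T6 K ↔ fv v (6 : K) ≠ 1 := by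
  unfold T6
  rw [Set.Finite.mem_toFinset]
  rfl

/-- the point of the line `x + y + z = 0` -/
noncomputable def zz (j : K) : K := -(j / 1728)

theorem n1728 : (1728 : K) ≠ 0 := by norm_num

theorem zz_add (j : K) : zz j + 1 = -((j - 1728) / 1728) := by
  unfold zz
  field_simp
  ring

theorem pt_zz {j : K} (h0 : j ≠ 0) (h1 : j ≠ 1728) : Pt (zz j) := by
  refine ⟨neg_ne_zero.2 (div_ne_zero h0 n1728), ?_⟩
  rw [zz_add]
  exact neg_ne_zero.2 (div_ne_zero (sub_ne_zero.2 h1) n1728)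

theorem zz_pt {x : K} (hx : Pt x) : ∃ j : K, j ≠ 0 ∧ j ≠ 1728 ∧ zz j = x := by
  refine ⟨-(1728 * x), neg_ne_zero.2 (mul_ne_zero n1728 hx.1), fun h => hx.2 ?_, ?_⟩
  · have : (1728 : K) * (x + 1) = 0 := by linear_combination -h
    rcases mul_eq_zero.1 this with h | h
    · exact absurd h n1728
    · exact h
  · unfold zz
    field_simp

theorem fv23 {v : Pr K} (h : v ∉ T6 K) : fv v (2 : K) = 1 ∧ fv v (3 : K) = 1 := by
  rw [mem_T6, not_not] at h
  have e2 : fv v (2 : K) ≤ 1 := by exact_mod_cast Pool.Agent.TH876.Loc.fv_natCast_le v 2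
  have e3 : fv v (3 : K) ≤ 1 := by exact_mod_cast Pool.Agent.TH876.Loc.fv_natCast_le v 3
  have e6 : fv v (2 : K) * fv v (3 : K) = 1 := by
    rw [← map_mul, ← h]
    norm_num
  have p2 : 0 < fv v (2 : K) := (fv v).pos (by norm_num)
  have p3 : 0 < fv v (3 : K) := (fv v).pos (by norm_num)
  have f2 : fv v (2 : K) = 1 := by
    apply le_antisymm e2
    nlinarith
  refine ⟨f2, ?_⟩
  rw [f2, one_mul] at e6
  exact e6

theorem fv1728 {v : Pr K} (h : v ∉ T6 K) : fv v (1728 : K) = 1 := by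
  obtain ⟨h2, h3⟩ := fv23 h
  rw [show (1728 : K) = 2 ^ 6 * 3 ^ 3 by norm_num, map_mul, map_pow, map_pow, h2, h3]
  norm_num

theorem fv_zz {v : Pr K} (h : v ∉ T6 K) (j : K) : fv v (zz j) = fv v j := by
  unfold zz
  rw [(fv v).map_neg, map_div₀, fv1728 h, div_one]

theorem fv_zz1 {v : Pr K} (h : v ∉ T6 K) (j : K) : fv v (zz j + 1) = fv v (j - 1728) := by
  rw [zz_add, (fv v).map_neg, map_div₀, fv1728 h, div_one]

theorem M_zz {v : Pr K} (h : v ∉ T6 K) (j : K) :
    M (Sum.inr v : Pl K) (zz j) = max (fv v j) (max 1 (fv v (j - 1728))) := by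
  have e0 : fv v (L 0 (zz j)) = fv v j := fv_zz h j
  have e1 : fv v (L 1 (zz j)) = 1 := map_one _
  have e2 : fv v (L 2 (zz j)) = fv v (j - 1728) := by
    rw [← fv_zz1 h]
    have : L 2 (zz j) = -(zz j + 1) := by show -zz j - 1 = _; ring
    rw [this, (fv v).map_neg]
  show max (fv v (L 0 (zz j))) (max (fv v (L 1 (zz j))) (fv v (L 2 (zz j)))) = _
  rw [e0, e1, e2]

theorem df0 {v : Pr K} (h : v ∉ T6 K) (j : K) : df (Sum.inr v : Pl K) 0 (zz j) =
    Real.log (max (fv v j) (max 1 (fv v (j - 1728)))) - Real.log (fv v j) := by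
  rw [df_inr, M_zz h]
  congr 2
  exact fv_zz h j

theorem df1 {v : Pr K} (h : v ∉ T6 K) (j : K) : df (Sum.inr v : Pl K) 1 (zz j) =
    Real.log (max (fv v j) (max 1 (fv v (j - 1728)))) := by
  rw [df_inr, M_zz h]
  have e1 : fv v (L 1 (zz j)) = 1 := map_one _
  rw [e1, Real.log_one, sub_zero]

theorem df2 {v : Pr K} (h : v ∉ T6 K) (j : K) : df (Sum.inr v : Pl K) 2 (zz j) =
    Real.log (max (fv v j) (max 1 (fv v (j - 1728)))) - Real.log (fv v (j - 1728)) := by
  rw [df_inr, M_zz h]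
  have e2 : fv v (L 2 (zz j)) = fv v (j - 1728) := by
    rw [← fv_zz1 h]
    have : L 2 (zz j) = -(zz j + 1) := by show -zz j - 1 = _; ring
    rw [this, (fv v).map_neg]
  rw [e2]

theorem na_sub (v : Pr K) (a b : K) : fv v (a - b) ≤ max (fv v a) (fv v b) := by
  rw [sub_eq_add_neg]
  refine (fv_na v _ _).trans ?_
  rw [(fv v).map_neg]

/-- a pole -/
theorem poleA {v : Pr K} (h : v ∉ T6 K) {j : K} (hj : 1 < fv v j) : fv v (j - 1728) = fv v j := by
  have h1 := na_sub v j 1728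
  rw [fv1728 h, max_eq_left hj.le] at h1
  have h2 := fv_na v (j - 1728) 1728
  rw [sub_add_cancel, fv1728 h] at h2
  rcases le_max_iff.1 h2 with h3 | h3
  · exact le_antisymm h1 h3
  · linarith

/-- a zero -/
theorem zeroA {v : Pr K} (h : v ∉ T6 K) {j : K} (hj : fv v j < 1) : fv v (j - 1728) = 1 := by
  have h1 := na_sub v j 1728
  rw [fv1728 h, max_eq_right hj.le] at h1
  have h2 := na_sub v j (j - 1728)
  rw [sub_sub_cancel, fv1728 h] at h2
  rcases le_max_iff.1 h2 with h3 | h3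
  · linarith
  · exact le_antisymm h1 h3

/-- the four cases: the values of the three defects -/
theorem cases4 {v : Pr K} (h : v ∉ T6 K) {j : K} (h0 : j ≠ 0) (h1 : j ≠ 1728) :
    (∃ m : ℕ, 1 ≤ m ∧ Real.log (fv v j) = m * Real.log (Nv v) ∧
      Real.log (fv v (j - 1728)) = m * Real.log (Nv v) ∧
      df (Sum.inr v : Pl K) 0 (zz j) = 0 ∧ df (Sum.inr v : Pl K) 1 (zz j) = m * Real.log (Nv v) ∧
      df (Sum.inr v : Pl K) 2 (zz j) = 0) ∨
    (∃ m : ℕ, 1 ≤ m ∧ Real.log (fv v j) = -(m * Real.log (Nv v)) ∧ fv v (j - 1728) = 1 ∧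
      df (Sum.inr v : Pl K) 0 (zz j) = m * Real.log (Nv v) ∧ df (Sum.inr v : Pl K) 1 (zz j) = 0 ∧
      df (Sum.inr v : Pl K) 2 (zz j) = 0) ∨
    (∃ m : ℕ, 1 ≤ m ∧ fv v j = 1 ∧ Real.log (fv v (j - 1728)) = -(m * Real.log (Nv v)) ∧
      df (Sum.inr v : Pl K) 0 (zz j) = 0 ∧ df (Sum.inr v : Pl K) 1 (zz j) = 0 ∧
      df (Sum.inr v : Pl K) 2 (zz j) = m * Real.log (Nv v)) ∨
    (fv v j = 1 ∧ fv v (j - 1728) = 1 ∧
      df (Sum.inr v : Pl K) 0 (zz j) = 0 ∧ df (Sum.inr v : Pl K) 1 (zz j) = 0 ∧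
      df (Sum.inr v : Pl K) 2 (zz j) = 0) := by
  have hpt := pt_zz h0 h1
  have hl := log_Nv_pos v
  have hj0 : 0 < fv v j := (fv v).pos h0
  have hj1 : 0 < fv v (j - 1728) := (fv v).pos (sub_ne_zero.2 h1)
  have npos : ∀ {m : ℕ} {t : ℝ}, t = m * Real.log (Nv v) → 0 < t → 1 ≤ m := by
    intro m t ht h
    rcases Nat.eq_zero_or_pos m with hm | hm
    · rw [hm, Nat.cast_zero, zero_mul] at ht
      linarith
    · exact hm
  rcases lt_trichotomy (fv v j) 1 with hj | hj | hj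
  · right; left
    have hk := zeroA h hj
    obtain ⟨m, hm⟩ := df_int hpt v 0
    have hM : max (fv v j) (max 1 (fv v (j - 1728))) = 1 := by
      rw [hk, max_self, max_eq_right hj.le]
    have e0 := df0 h j
    have e1 := df1 h j
    have e2 := df2 h j
    rw [hM] at e0 e1 e2
    rw [hk] at e2
    rw [Real.log_one] at e0 e1 e2
    have hlog : Real.log (fv v j) < 0 := Real.log_neg hj0 hj
    refine ⟨m, npos hm (by linarith), by linarith, hk, hm, e1, by rw [e2]; ring⟩
  · right; right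
    have hle : fv v (j - 1728) ≤ 1 := by
      refine (na_sub v j 1728).trans ?_
      rw [hj, fv1728 h, max_self]
    have hM : max (fv v j) (max 1 (fv v (j - 1728))) = 1 := by
      rw [max_eq_left hle, hj, max_self]
    have e0 := df0 h j
    have e1 := df1 h j
    have e2 := df2 h j
    rw [hM] at e0 e1 e2
    rw [hj] at e0
    rw [Real.log_one] at e0 e1 e2
    rcases lt_or_eq_of_le hle with hk | hk
    · left
      obtain ⟨m, hm⟩ := df_int hpt v 2
      have hlog : Real.log (fv v (j - 1728)) < 0 := Real.log_neg hj1 hk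
      exact ⟨m, npos hm (by linarith), hj, by linarith, by rw [e0]; ring, e1, hm⟩
    · right
      rw [hk, Real.log_one] at e2
      exact ⟨hj, hk, by rw [e0]; ring, e1, by rw [e2]; ring⟩
  · left
    have hk := poleA h hj
    obtain ⟨m, hm⟩ := df_int hpt v 1
    have hM : max (fv v j) (max 1 (fv v (j - 1728))) = fv v j := by
      rw [hk, max_eq_right hj.le, max_self]
    have e0 := df0 h j
    have e1 := df1 h j
    have e2 := df2 h j
    rw [hM] at e0 e1 e2
    rw [hk] at e2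
    have hlog : 0 < Real.log (fv v j) := Real.log_pos hj
    refine ⟨m, npos hm (by linarith), by linarith, by rw [hk]; linarith, by rw [e0]; ring, hm,
      by rw [e2]; ring⟩

omit [NumberField K] in
theorem j_sub (E : WeierstrassCurve K) (hE : E.Δ ≠ 0) :
    E.c₄ ^ 3 / E.Δ - 1728 = E.c₆ ^ 2 / E.Δ := by
  rw [div_sub' hE]
  congr 1
  linear_combination (-1 : K) * E.c_relation

/-- good reduction: cubes and squares -/
theorem good_pow {v : Pr K} {E : WeierstrassCurve K} (hE : E.Δ ≠ 0) (h : GoodAt v E) :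
    ∃ x y : K, fv v (E.c₄ ^ 3 / E.Δ) = fv v x ^ 3 ∧ fv v (E.c₄ ^ 3 / E.Δ - 1728) = fv v y ^ 2 := by
  obtain ⟨C, h1, h2, h3, h4, h6, hΔ⟩ := h
  have hD := (fv_one_iff v).2 hΔ
  refine ⟨(C • E).c₄, (C • E).c₆, ?_, ?_⟩
  · rw [j_change E hE C, map_div₀, map_pow, hD, div_one]
  · rw [j_change E hE C, j_sub _ (disc_ne E hE C), map_div₀, map_pow, hD, div_one]

/-- semistable reduction and integral invariant -/
theorem good_of_semi {v : Pr K} {E : WeierstrassCurve K} (hE : E.Δ ≠ 0) (h : SemiAt v E)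
    (hj : fv v (E.c₄ ^ 3 / E.Δ) ≤ 1) : GoodAt v E := by
  obtain ⟨C, h1, h2, h3, h4, h6, h7⟩ := h
  refine ⟨C, h1, h2, h3, h4, h6, ?_⟩
  rcases h7 with h7 | h7
  · exact h7
  · have hC := (fv_one_iff v).2 h7
    have h0 := disc_ne E hE C
    rw [j_change E hE C, map_div₀, map_pow, hC, one_pow, div_le_one ((fv v).pos h0)] at hj
    rw [← fv_one_iff v]
    exact le_antisymm ((fv_le_one_iff v).2 (int_disc v _ ⟨h1, h2, h3, h4, h6⟩).1) hj

theorem log_fv_int (v : Pr K) {x : K} (hx : x ≠ 0) : ∃ a : ℤ,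
    Real.log (fv v x) = a * Real.log (Nv v) := by
  obtain ⟨a, ha⟩ := fv_zpow v hx
  exact ⟨a, by rw [ha, Real.log_zpow]⟩

theorem int_of_log (v : Pr K) {a b : ℤ} (h : (a : ℝ) * Real.log (Nv v) = b * Real.log (Nv v)) :
    a = b := by
  have := mul_right_cancel₀ (log_Nv_pos v).ne' h
  exact_mod_cast this

/-- a simple zero of `j` is not a prime of good reduction -/
theorem not_good_zero {v : Pr K} {E : WeierstrassCurve K} (hE : E.Δ ≠ 0)
    (hj : Real.log (fv v (E.c₄ ^ 3 / E.Δ)) = -Real.log (Nv v)) : ¬ GoodAt v E := by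
  intro h
  obtain ⟨x, -, hx, -⟩ := good_pow hE h
  have hl := log_Nv_pos v
  rw [hx, Real.log_pow] at hj
  by_cases h0 : x = 0
  · rw [h0, map_zero, Real.log_zero] at hj
    linarith
  · obtain ⟨a, ha⟩ := log_fv_int v h0
    rw [ha] at hj
    have := int_of_log v (a := 3 * a) (b := -1) (by push_cast at hj ⊢; linarith)
    omega

theorem not_good_1728 {v : Pr K} {E : WeierstrassCurve K} (hE : E.Δ ≠ 0)
    (hj : Real.log (fv v (E.c₄ ^ 3 / E.Δ - 1728)) = -Real.log (Nv v)) : ¬ GoodAt v E := by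
  intro h
  obtain ⟨-, y, -, hy⟩ := good_pow hE h
  have hl := log_Nv_pos v
  rw [hy, Real.log_pow] at hj
  by_cases h0 : y = 0
  · rw [h0, map_zero, Real.log_zero] at hj
    linarith
  · obtain ⟨a, ha⟩ := log_fv_int v h0
    rw [ha] at hj
    have := int_of_log v (a := 2 * a) (b := -1) (by push_cast at hj ⊢; linarith)
    omega

theorem v6 {v : Pr K} (h : v ∉ T6 K) : v.valuation K 6 = 1 := by
  rw [mem_T6, not_not, fv_one_iff] at h
  exact h

theorem aw_of {v : Pr K} (h : v ∉ T6 K) {E : WeierstrassCurve K} (hs : ¬ SemiAt v E) :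
    aw v E = Real.log (Nv v) ∧ mw v E = 0 := by
  unfold aw mw
  exact ⟨if_pos ⟨hs, v6 h⟩, if_neg fun h' => hs h'.2.1⟩

theorem mw_of {v : Pr K} (h : v ∉ T6 K) {E : WeierstrassCurve K} (hs : SemiAt v E)
    (hg : ¬ GoodAt v E) : aw v E = 0 ∧ mw v E = Real.log (Nv v) := by
  unfold aw mw
  exact ⟨if_neg fun h' => h'.1 hs, if_pos ⟨hg, hs, v6 h⟩⟩

theorem w_good {v : Pr K} {E : WeierstrassCurve K} (hg : GoodAt v E) :
    aw v E = 0 ∧ mw v E = 0 := by
  unfold aw mw
  exact ⟨if_neg fun h' => h'.1 (semi_of_good hg), if_neg fun h' => h'.1 hg⟩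

theorem w_T {v : Pr K} (h : v ∈ T6 K) (E : WeierstrassCurve K) : aw v E = 0 ∧ mw v E = 0 := by
  rw [mem_T6] at h
  unfold aw mw
  exact ⟨if_neg fun h' => h ((fv_one_iff v).2 h'.2), if_neg fun h' => h ((fv_one_iff v).2 h'.2.2)⟩

/-- the contribution of a prime to the conductor -/
noncomputable def cw (v : Pr K) (E : WeierstrassCurve K) : ℝ := mw v E + 2 * aw v E

theorem cw_nonneg (v : Pr K) (E : WeierstrassCurve K) : 0 ≤ cw v E := by
  have h1 := mw_nonneg v E
  have h2 := aw_nonneg v E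
  unfold cw
  linarith

theorem cw_le (v : Pr K) (E : WeierstrassCurve K) : cw v E ≤ 2 * Real.log (Nv v) := by
  have hl := log_Nv_pos v
  unfold cw
  by_cases h : v ∈ T6 K
  · rw [(w_T h E).1, (w_T h E).2]
    linarith
  · by_cases hs : SemiAt v E
    · by_cases hg : GoodAt v E
      · rw [(w_good hg).1, (w_good hg).2]
        linarith
      · rw [(mw_of h hs hg).1, (mw_of h hs hg).2]
        linarith
    · rw [(aw_of h hs).1, (aw_of h hs).2]
      linarith

open Classical in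
/-- `log N(v)` if the `i`-th defect is not zero -/
noncomputable def ll (v : Pr K) (i : Fin 3) (x : K) : ℝ :=
  if 0 < df (Sum.inr v : Pl K) i x then Real.log (Nv v) else 0

theorem ll_zero {v : Pr K} {i : Fin 3} {x : K} (h : df (Sum.inr v : Pl K) i x = 0) :
    ll v i x = 0 := by
  unfold ll
  rw [if_neg (by rw [h]; exact lt_irrefl _)]

theorem ll_pos {v : Pr K} {i : Fin 3} {x : K} {m : ℕ} (hm : 1 ≤ m)
    (h : df (Sum.inr v : Pl K) i x = m * Real.log (Nv v)) : ll v i x = Real.log (Nv v) := by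
  unfold ll
  have h1 : (1 : ℝ) ≤ m := by exact_mod_cast hm
  have hl := log_Nv_pos v
  rw [if_pos (by rw [h]; positivity)]

/-- **the conductor from below** -/
theorem cond_loc {v : Pr K} (h : v ∉ T6 K) {E : WeierstrassCurve K} (hE : E.Δ ≠ 0)
    (h0 : E.c₄ ^ 3 / E.Δ ≠ 0) (h1 : E.c₄ ^ 3 / E.Δ ≠ 1728) :
    4 * ll v 0 (zz (E.c₄ ^ 3 / E.Δ)) - 2 * df (Sum.inr v : Pl K) 0 (zz (E.c₄ ^ 3 / E.Δ)) +
      (4 * ll v 2 (zz (E.c₄ ^ 3 / E.Δ)) - 2 * df (Sum.inr v : Pl K) 2 (zz (E.c₄ ^ 3 / E.Δ))) +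
      ll v 1 (zz (E.c₄ ^ 3 / E.Δ)) ≤ cw v E := by
  have hl := log_Nv_pos v
  have hc := cw_nonneg v E
  rcases cases4 h h0 h1 with ⟨m, hm, a1, a2, a3, a4, a5⟩ | ⟨m, hm, a1, a2, a3, a4, a5⟩ |
    ⟨m, hm, a1, a2, a3, a4, a5⟩ | ⟨a1, a2, a3, a4, a5⟩
  · rw [ll_zero a3, ll_zero a5, ll_pos hm a4, a3, a5]
    have hng : ¬ GoodAt v E := by
      intro hg
      have := good_int v E hE hg
      have h2 := Real.log_nonpos ((fv v).nonneg _) this
      rw [a1] at h2
      have h3 : (1 : ℝ) ≤ m := by exact_mod_cast hm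
      nlinarith
    unfold cw
    by_cases hs : SemiAt v E
    · rw [(mw_of h hs hng).1, (mw_of h hs hng).2]
      linarith
    · rw [(aw_of h hs).1, (aw_of h hs).2]
      linarith
  · rw [ll_pos hm a3, ll_zero a4, ll_zero a5, a3, a5]
    rcases Nat.lt_or_ge 1 m with hm2 | hm2
    · have h3 : (2 : ℝ) ≤ m := by exact_mod_cast hm2
      nlinarith
    · have hm1 : m = 1 := by omega
      rw [hm1, Nat.cast_one, one_mul] at a1 ⊢
      have hng := not_good_zero hE a1
      have hns : ¬ SemiAt v E := fun hs => hng (good_of_semi hE hs (by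
        by_contra hcon
        have := Real.log_pos (not_le.1 hcon)
        linarith))
      unfold cw
      rw [(aw_of h hns).1, (aw_of h hns).2]
      linarith
  · rw [ll_zero a3, ll_zero a4, ll_pos hm a5, a3, a5]
    rcases Nat.lt_or_ge 1 m with hm2 | hm2
    · have h3 : (2 : ℝ) ≤ m := by exact_mod_cast hm2
      nlinarith
    · have hm1 : m = 1 := by omega
      rw [hm1, Nat.cast_one, one_mul] at a2 ⊢
      have hng := not_good_1728 hE a2
      have hns : ¬ SemiAt v E := fun hs => hng (good_of_semi hE hs a1.le)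
      unfold cw
      rw [(aw_of h hns).1, (aw_of h hns).2]
      linarith
  · rw [ll_zero a3, ll_zero a4, ll_zero a5, a3, a5]
    linarith

/-- the exponent of the minimal discriminant modulo twelve -/
theorem disc_cong (v : Pr K) {E : WeierstrassCurve K} (hE : E.Δ ≠ 0) : ∃ k : ℤ,
    (discExp v E : ℝ) * Real.log (Nv v) = -Real.log (fv v E.Δ) + 12 * k * Real.log (Nv v) := by
  have hN : 0 < Nv v := lt_trans one_pos (Pool.Agent.W223.AK.Nv_one_lt v)
  have hne : {m : ℕ | ∃ C : WeierstrassCurve.VariableChange K, IntAt v (C • E) ∧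
      v.valuation K (C • E).Δ = WithZero.exp (-(m : ℤ))}.Nonempty := by
    obtain ⟨k, k1, k2, -⟩ := exists_k v (x := E.c₄ / 48) (y := E.c₆ / 864) (by
      rcases c46 E hE with h | h
      · exact Or.inl (div_ne_zero h (by norm_num))
      · exact Or.inr (div_ne_zero h (by norm_num)))
    obtain ⟨u, hu⟩ := Pool.Agent.Y733.LS.exists_fv v k
    have hu0 : u ≠ 0 := by
      rintro rfl
      rw [map_zero] at hu
      exact absurd hu.symm (zpow_ne_zero _ hN.ne')
    obtain ⟨C, c1, c2, c3, c4, c6, c7⟩ := short E (Units.mk0 u hu0)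
    have e : (((Units.mk0 u hu0)⁻¹ : Kˣ) : K) = u⁻¹ := rfl
    rw [e] at c4 c6 c7
    have hle : ∀ x : K, ∀ m : ℕ, fv v x ≤ (Nv v) ^ ((m : ℤ) * k) →
        fv v (-x * u⁻¹ ^ m) ≤ 1 := by
      intro x m hx
      rw [map_mul, map_neg_eq_map, map_pow, map_inv₀, hu, inv_pow, ← div_eq_mul_inv,
        div_le_one (pow_pos (zpow_pos hN _) _)]
      refine hx.trans (le_of_eq ?_)
      rw [mul_comm, zpow_mul, zpow_natCast]
    have hint : IntAt v (C • E) := by
      refine ⟨?_, ?_, ?_, ?_, ?_⟩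
      · rw [c1, map_zero]; exact zero_le_one
      · rw [c2, map_zero]; exact zero_le_one
      · rw [c3, map_zero]; exact zero_le_one
      · rw [c4, ← fv_le_one_iff v]
        exact hle _ 4 (by exact_mod_cast k1)
      · rw [c6, ← fv_le_one_iff v]
        exact hle _ 6 (by exact_mod_cast k2)
    obtain ⟨m, hm⟩ := val_exp v (disc_ne E hE C) (int_disc v _ hint).1
    exact ⟨m, C, hint, hm⟩
  obtain ⟨C, -, hC⟩ := Nat.sInf_mem hne
  have h1 := fv_exp v hC
  rw [WeierstrassCurve.variableChange_Δ, map_mul, map_pow] at h1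
  have hu : ((C.u⁻¹ : Kˣ) : K) ≠ 0 := Units.ne_zero _
  obtain ⟨a, ha⟩ := log_fv_int v hu
  rw [Real.log_mul (pow_ne_zero _ ((fv v).pos hu).ne') ((fv v).pos hE).ne', Real.log_pow, ha] at h1
  refine ⟨-a, ?_⟩
  have e1 : (discExp v E : ℝ) = ((sInf {m : ℕ | ∃ C : WeierstrassCurve.VariableChange K,
    IntAt v (C • E) ∧ v.valuation K (C • E).Δ = WithZero.exp (-(m : ℤ))} : ℕ) : ℝ) := rfl
  rw [e1]
  push_cast at h1 ⊢
  linarith

end Pool.Agent.Q19.JL
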