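import Pool.Agent.Q19.JL.Loc

/-!
# The minimal discriminant at one prime; the twists with the least conductor and with the largest
discriminant
-/

set_option autoImplicit false

namespace Pool.Agent.Q19.JL

open NumberField IsDedekindDomain Finset Pool.Agent.H691R3
open Pool.Agent.TH876.Loc (Pr Pt M df L one_le_M)
open Pool.Agent.TH876.KR (df_inr df_int)
open Pool.Agent.TH876.FH (GoodAt)
open Pool.Agent.Y733.FF (SemiAt IntAt discExp mw aw mw_nonneg aw_nonneg good_int semi_disc disc_good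
  disc_bound disc_k short j_change disc_ne fv_one_iff fv_le_one_iff val_exp int_disc fv_exp
  exists_k c46 semi_of_good)

variable {K : Type} [Field K] [NumberField K]

/-- the logarithms of `c₄`, `c₆`, `Δ` -/
theorem logs (v : Pr K) {E : WeierstrassCurve K} (hE : E.Δ ≠ 0)
    (h0 : E.c₄ ^ 3 / E.Δ ≠ 0) (h1 : E.c₄ ^ 3 / E.Δ ≠ 1728) : ∃ a b d : ℤ,
    Real.log (fv v E.Δ) = d * Real.log (Nv v) ∧
    Real.log (fv v (E.c₄ ^ 3 / E.Δ)) = ((3 * a - d : ℤ) : ℝ) * Real.log (Nv v) ∧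
    Real.log (fv v (E.c₄ ^ 3 / E.Δ - 1728)) = ((2 * b - d : ℤ) : ℝ) * Real.log (Nv v) := by
  have h4 : E.c₄ ≠ 0 := by
    intro h
    rw [h] at h0
    exact h0 (by simp)
  have h6 : E.c₆ ≠ 0 := by
    intro h
    have h2 := j_sub E hE
    rw [h] at h2
    apply h1
    rw [← sub_eq_zero, h2]
    simp
  obtain ⟨a, ha⟩ := log_fv_int v h4
  obtain ⟨b, hb⟩ := log_fv_int v h6
  obtain ⟨d, hd⟩ := log_fv_int v hE
  refine ⟨a, b, d, hd, ?_, ?_⟩
  · rw [map_div₀, map_pow, Real.log_div (pow_ne_zero _ ((fv v).pos h4).ne') ((fv v).pos hE).ne',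
      Real.log_pow, ha, hd]
    push_cast
    ring
  · rw [j_sub E hE, map_div₀, map_pow, Real.log_div (pow_ne_zero _ ((fv v).pos h6).ne')
      ((fv v).pos hE).ne', Real.log_pow, hb, hd]
    push_cast
    ring

/-- **the minimal discriminant from above** -/
theorem disc_loc {v : Pr K} (h : v ∉ T6 K) {E : WeierstrassCurve K} (hE : E.Δ ≠ 0)
    (h0 : E.c₄ ^ 3 / E.Δ ≠ 0) (h1 : E.c₄ ^ 3 / E.Δ ≠ 1728) :
    (discExp v E : ℝ) * Real.log (Nv v) ≤ 4 * cw v E +
      2 * (df (Sum.inr v : Pl K) 0 (zz (E.c₄ ^ 3 / E.Δ)) - ll v 0 (zz (E.c₄ ^ 3 / E.Δ))) +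
      df (Sum.inr v : Pl K) 2 (zz (E.c₄ ^ 3 / E.Δ)) +
      (df (Sum.inr v : Pl K) 1 (zz (E.c₄ ^ 3 / E.Δ)) - 2 * ll v 1 (zz (E.c₄ ^ 3 / E.Δ))) := by
  have hl := log_Nv_pos v
  have hc := cw_nonneg v E
  obtain ⟨f2, f3⟩ := fv23 h
  have f6 : Real.log (fv v (6 : K)) = 0 := by
    rw [mem_T6, not_not] at h
    rw [h, Real.log_one]
  obtain ⟨b1, b2⟩ := disc_bound v E hE
  rw [f6] at b1
  obtain ⟨k, hk⟩ := disc_cong v hE
  obtain ⟨a, b, d, hd, e1, e2⟩ := logs v hE h0 h1
  -- the exponent is small and has a given residue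
  have cong : (discExp v E : ℤ) = -d + 12 * k := by
    refine int_of_log v ?_
    push_cast
    rw [hd] at hk
    linarith
  have small : fv v (E.c₄ ^ 3 / E.Δ) ≤ 1 → discExp v E ≤ 10 := by
    intro hj
    rw [max_eq_right hj, Real.log_one] at b1
    have : (discExp v E : ℝ) * Real.log (Nv v) ≤ 10 * Real.log (Nv v) := by linarith
    have := le_of_mul_le_mul_right this hl
    exact_mod_cast this
  rcases cases4 h h0 h1 with ⟨m, hm, a1, a2, a3, a4, a5⟩ | ⟨m, hm, a1, a2, a3, a4, a5⟩ |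
    ⟨m, hm, a1, a2, a3, a4, a5⟩ | ⟨a1, a2, a3, a4, a5⟩
  · have hm1 : (1 : ℝ) ≤ m := by exact_mod_cast hm
    rw [ll_zero a3, ll_pos hm a4, a3, a4, a5]
    have hpole : 1 < fv v (E.c₄ ^ 3 / E.Δ) := by
      by_contra hcon
      have h2 := Real.log_nonpos ((fv v).nonneg _) (not_lt.1 hcon)
      rw [a1] at h2
      nlinarith
    have hng : ¬ GoodAt v E := by
      intro hg
      have := good_int v E hE hg
      linarith
    unfold cw
    by_cases hs : SemiAt v E
    · rw [(mw_of h hs hng).1, (mw_of h hs hng).2]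
      have := semi_disc v E hE hs
      rw [max_eq_left hpole.le, a1] at this
      linarith
    · rw [(aw_of h hs).1, (aw_of h hs).2]
      have := b2 f2 f3 hpole
      rw [max_eq_left hpole.le, a1] at this
      linarith
  · have hj : fv v (E.c₄ ^ 3 / E.Δ) ≤ 1 := by
      by_contra hcon
      have := Real.log_pos (not_le.1 hcon)
      rw [a1] at this
      have : (0 : ℝ) ≤ m * Real.log (Nv v) := by positivity
      linarith
    have hs1 := small hj
    have hm1 : (1 : ℝ) ≤ m := by exact_mod_cast hm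
    rw [ll_pos hm a3, ll_zero a4, a3, a4, a5]
    by_cases hs : SemiAt v E
    · rw [disc_good v E (good_of_semi hE hs hj)]
      push_cast
      nlinarith
    · unfold cw
      rw [(aw_of h hs).1, (aw_of h hs).2]
      rcases Nat.lt_or_ge 1 m with hm2 | hm2
      · have h3 : (2 : ℝ) ≤ m := by exact_mod_cast hm2
        have h4 : (discExp v E : ℝ) ≤ 10 := by exact_mod_cast hs1
        nlinarith
      · have hm1 : m = 1 := by omega
        rw [hm1, Nat.cast_one] at a1
        rw [a2, Real.log_one] at e2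
        rw [a1] at e1
        have c1 := int_of_log v (a := 3 * a - d) (b := -1) (by rw [← e1]; push_cast; ring)
        have c2 := int_of_log v (a := 2 * b - d) (b := 0) (by rw [← e2]; push_cast; ring)
        have c3 : (discExp v E : ℤ) ≤ 8 := by
          have : (discExp v E : ℤ) ≤ 10 := by exact_mod_cast hs1
          omega
        have h4 : (discExp v E : ℝ) ≤ 8 := by exact_mod_cast c3
        rw [hm1]
        push_cast
        nlinarith
  · have hs1 := small a1.le
    have hm1 : (1 : ℝ) ≤ m := by exact_mod_cast hm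
    rw [ll_zero a3, ll_zero a4, a3, a4, a5]
    by_cases hs : SemiAt v E
    · rw [disc_good v E (good_of_semi hE hs a1.le)]
      push_cast
      nlinarith
    · unfold cw
      rw [(aw_of h hs).1, (aw_of h hs).2]
      rcases Nat.lt_or_ge 1 m with hm2 | hm2
      · have h3 : (2 : ℝ) ≤ m := by exact_mod_cast hm2
        have h4 : (discExp v E : ℝ) ≤ 10 := by exact_mod_cast hs1
        nlinarith
      · have hm1 : m = 1 := by omega
        rw [hm1, Nat.cast_one] at a2
        rw [a1, Real.log_one] at e1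
        rw [a2] at e2
        have c1 := int_of_log v (a := 3 * a - d) (b := 0) (by rw [← e1]; push_cast; ring)
        have c2 := int_of_log v (a := 2 * b - d) (b := -1) (by rw [← e2]; push_cast; ring)
        have c3 : (discExp v E : ℤ) ≤ 9 := by
          have : (discExp v E : ℤ) ≤ 10 := by exact_mod_cast hs1
          omega
        have h4 : (discExp v E : ℝ) ≤ 9 := by exact_mod_cast c3
        rw [hm1]
        push_cast
        nlinarith
  · have hs1 := small a1.le
    rw [ll_zero a3, ll_zero a4, a3, a4, a5]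
    by_cases hs : SemiAt v E
    · rw [disc_good v E (good_of_semi hE hs a1.le)]
      push_cast
      nlinarith
    · unfold cw
      rw [(aw_of h hs).1, (aw_of h hs).2]
      rw [a1, Real.log_one] at e1
      rw [a2, Real.log_one] at e2
      have c1 := int_of_log v (a := 3 * a - d) (b := 0) (by rw [← e1]; push_cast; ring)
      have c2 := int_of_log v (a := 2 * b - d) (b := 0) (by rw [← e2]; push_cast; ring)
      have c3 : (discExp v E : ℤ) ≤ 8 := by
        have : (discExp v E : ℤ) ≤ 10 := by exact_mod_cast hs1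
        omega
      have h4 : (discExp v E : ℝ) ≤ 8 := by exact_mod_cast c3
      nlinarith

/-- the curve with given `c₄`, `c₆` -/
noncomputable def cur (x y : K) : WeierstrassCurve K := ⟨0, 0, 0, -(x / 48), -(y / 864)⟩

theorem cur_c4 (x y : K) : (cur x y).c₄ = x := by
  unfold cur
  simp only [WeierstrassCurve.c₄, WeierstrassCurve.b₂, WeierstrassCurve.b₄]
  field_simp
  ring

theorem cur_Δ (x y : K) : 1728 * (cur x y).Δ = x ^ 3 - y ^ 2 := by
  unfold cur
  simp only [WeierstrassCurve.Δ, WeierstrassCurve.b₂, WeierstrassCurve.b₄, WeierstrassCurve.b₆,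
    WeierstrassCurve.b₈]
  field_simp
  ring

/-- the curve with the least conductor -/
noncomputable def eMin (j : K) : WeierstrassCurve K :=
  cur ((j - 1728) / j) ((j - 1728) ^ 2 / j ^ 2)

/-- the curve with the largest discriminant -/
noncomputable def eMax (j : K) : WeierstrassCurve K :=
  cur (j ^ 3 * (j - 1728) ^ 3) (j ^ 4 * (j - 1728) ^ 5)

theorem eMin_Δ {j : K} (h0 : j ≠ 0) : (eMin j).Δ = (j - 1728) ^ 3 / j ^ 4 := by
  have h := cur_Δ ((j - 1728) / j) ((j - 1728) ^ 2 / j ^ 2)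
  have h2 : (1728 : K) * (eMin j).Δ = 1728 * ((j - 1728) ^ 3 / j ^ 4) := by
    unfold eMin
    rw [h]
    field_simp
    ring
  exact mul_left_cancel₀ n1728 h2

theorem eMax_Δ (j : K) : (eMax j).Δ = j ^ 8 * (j - 1728) ^ 9 := by
  have h := cur_Δ (j ^ 3 * (j - 1728) ^ 3) (j ^ 4 * (j - 1728) ^ 5)
  have h2 : (1728 : K) * (eMax j).Δ = 1728 * (j ^ 8 * (j - 1728) ^ 9) := by
    unfold eMax
    rw [h]
    ring
  exact mul_left_cancel₀ n1728 h2

theorem eMin_ne {j : K} (h0 : j ≠ 0) (h1 : j ≠ 1728) : (eMin j).Δ ≠ 0 := by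
  rw [eMin_Δ h0]
  exact div_ne_zero (pow_ne_zero _ (sub_ne_zero.2 h1)) (pow_ne_zero _ h0)

theorem eMax_ne {j : K} (h0 : j ≠ 0) (h1 : j ≠ 1728) : (eMax j).Δ ≠ 0 := by
  rw [eMax_Δ]
  exact mul_ne_zero (pow_ne_zero _ h0) (pow_ne_zero _ (sub_ne_zero.2 h1))

theorem eMin_j {j : K} (h0 : j ≠ 0) (h1 : j ≠ 1728) : (eMin j).c₄ ^ 3 / (eMin j).Δ = j := by
  have h2 := sub_ne_zero.2 h1
  rw [eMin_Δ h0]
  unfold eMin
  rw [cur_c4]
  field_simp

theorem eMax_j {j : K} (h0 : j ≠ 0) (h1 : j ≠ 1728) : (eMax j).c₄ ^ 3 / (eMax j).Δ = j := by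
  have h2 := sub_ne_zero.2 h1
  rw [eMax_Δ]
  unfold eMax
  rw [cur_c4]
  field_simp

theorem fv48 {v : Pr K} (h : v ∉ T6 K) : fv v (48 : K) = 1 ∧ fv v (864 : K) = 1 := by
  obtain ⟨h2, h3⟩ := fv23 h
  constructor
  · rw [show (48 : K) = 2 ^ 4 * 3 by norm_num, map_mul, map_pow, h2, h3]
    norm_num
  · rw [show (864 : K) = 2 ^ 5 * 3 ^ 3 by norm_num, map_mul, map_pow, map_pow, h2, h3]
    norm_num

theorem cur_int {v : Pr K} (h : v ∉ T6 K) {x y : K} (hx : fv v x ≤ 1) (hy : fv v y ≤ 1) :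
    v.valuation K (cur x y).a₁ ≤ 1 ∧ v.valuation K (cur x y).a₂ ≤ 1 ∧
    v.valuation K (cur x y).a₃ ≤ 1 ∧ v.valuation K (cur x y).a₄ ≤ 1 ∧
    v.valuation K (cur x y).a₆ ≤ 1 := by
  obtain ⟨h48, h864⟩ := fv48 h
  have k0 : v.valuation K (0 : K) ≤ 1 := by rw [map_zero]; exact zero_le
  refine ⟨k0, k0, k0, ?_, ?_⟩
  · rw [← fv_le_one_iff v]
    show fv v (-(x / 48)) ≤ 1
    rw [(fv v).map_neg, map_div₀, h48, div_one]
    exact hx
  · rw [← fv_le_one_iff v]
    show fv v (-(y / 864)) ≤ 1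
    rw [(fv v).map_neg, map_div₀, h864, div_one]
    exact hy

/-- good reduction of the two curves outside the primes of the point -/
theorem eMin_good {v : Pr K} (h : v ∉ T6 K) {j : K} (h0 : j ≠ 0) (hj : fv v j = 1)
    (hk : fv v (j - 1728) = 1) : GoodAt v (eMin j) := by
  obtain ⟨g1, g2, g3, g4, g6⟩ := cur_int h (x := (j - 1728) / j) (y := (j - 1728) ^ 2 / j ^ 2)
    (by rw [map_div₀, hj, hk]; norm_num) (by rw [map_div₀, map_pow, map_pow, hj, hk]; norm_num)
  refine ⟨1, ?_⟩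
  rw [one_smul]
  refine ⟨g1, g2, g3, g4, g6, ?_⟩
  rw [← fv_one_iff v, eMin_Δ h0, map_div₀, map_pow, map_pow, hj, hk]
  norm_num

theorem eMax_good {v : Pr K} (h : v ∉ T6 K) {j : K} (hj : fv v j = 1)
    (hk : fv v (j - 1728) = 1) : GoodAt v (eMax j) := by
  obtain ⟨g1, g2, g3, g4, g6⟩ := cur_int h (x := j ^ 3 * (j - 1728) ^ 3)
    (y := j ^ 4 * (j - 1728) ^ 5) (by rw [map_mul, map_pow, map_pow, hj, hk]; norm_num)
    (by rw [map_mul, map_pow, map_pow, hj, hk]; norm_num)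
  refine ⟨1, ?_⟩
  rw [one_smul]
  refine ⟨g1, g2, g3, g4, g6, ?_⟩
  rw [← fv_one_iff v, eMax_Δ, map_mul, map_pow, map_pow, hj, hk]
  norm_num

/-- semistable reduction of the first curve at the poles -/
theorem eMin_semi {v : Pr K} (h : v ∉ T6 K) {j : K} (h0 : j ≠ 0) (hj : 1 < fv v j) :
    SemiAt v (eMin j) := by
  have hk := poleA h hj
  have hp : 0 < fv v j := by linarith
  obtain ⟨g1, g2, g3, g4, g6⟩ := cur_int h (x := (j - 1728) / j) (y := (j - 1728) ^ 2 / j ^ 2)
    (by rw [map_div₀, hk, div_self hp.ne']) (by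
      rw [map_div₀, map_pow, map_pow, hk, div_self (pow_ne_zero _ hp.ne')])
  refine ⟨1, ?_⟩
  rw [one_smul]
  refine ⟨g1, g2, g3, g4, g6, Or.inr ?_⟩
  rw [← fv_one_iff v]
  unfold eMin
  rw [cur_c4, map_div₀, hk, div_self hp.ne']

/-- **the conductor of the first curve** -/
theorem eMin_loc {v : Pr K} (h : v ∉ T6 K) {j : K} (h0 : j ≠ 0) (h1 : j ≠ 1728) :
    cw v (eMin j) ≤ 2 * ll v 0 (zz j) + 2 * ll v 2 (zz j) + ll v 1 (zz j) := by
  have hl := log_Nv_pos v
  have hc := cw_le v (eMin j)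
  rcases cases4 h h0 h1 with ⟨m, hm, a1, a2, a3, a4, a5⟩ | ⟨m, hm, a1, a2, a3, a4, a5⟩ |
    ⟨m, hm, a1, a2, a3, a4, a5⟩ | ⟨a1, a2, a3, a4, a5⟩
  · rw [ll_zero a3, ll_pos hm a4, ll_zero a5]
    have hpole : 1 < fv v j := by
      by_contra hcon
      have h2 := Real.log_nonpos ((fv v).nonneg _) (not_lt.1 hcon)
      rw [a1] at h2
      have hm1 : (1 : ℝ) ≤ m := by exact_mod_cast hm
      nlinarith
    have hs := eMin_semi h h0 hpole
    have hng : ¬ GoodAt v (eMin j) := by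
      intro hg
      have := good_int v _ (eMin_ne h0 h1) hg
      rw [eMin_j h0 h1] at this
      linarith
    unfold cw
    rw [(mw_of h hs hng).1, (mw_of h hs hng).2]
    linarith
  · rw [ll_pos hm a3, ll_zero a4, ll_zero a5]
    linarith
  · rw [ll_zero a3, ll_zero a4, ll_pos hm a5]
    linarith
  · rw [ll_zero a3, ll_zero a4, ll_zero a5]
    unfold cw
    rw [(w_good (eMin_good h h0 a1 a2)).1, (w_good (eMin_good h h0 a1 a2)).2]
    linarith

/-- the conductor of the second curve -/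
theorem eMax_cw {v : Pr K} (h : v ∉ T6 K) {j : K} (h0 : j ≠ 0) (h1 : j ≠ 1728) :
    cw v (eMax j) ≤ 2 * (ll v 0 (zz j) + ll v 1 (zz j) + ll v 2 (zz j)) := by
  have hl := log_Nv_pos v
  have hc := cw_le v (eMax j)
  rcases cases4 h h0 h1 with ⟨m, hm, a1, a2, a3, a4, a5⟩ | ⟨m, hm, a1, a2, a3, a4, a5⟩ |
    ⟨m, hm, a1, a2, a3, a4, a5⟩ | ⟨a1, a2, a3, a4, a5⟩
  · rw [ll_zero a3, ll_pos hm a4, ll_zero a5]
    linarith
  · rw [ll_pos hm a3, ll_zero a4, ll_zero a5]
    linarith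
  · rw [ll_zero a3, ll_zero a4, ll_pos hm a5]
    linarith
  · rw [ll_zero a3, ll_zero a4, ll_zero a5]
    unfold cw
    rw [(w_good (eMax_good h a1 a2)).1, (w_good (eMax_good h a1 a2)).2]
    linarith

/-- **the minimal discriminant of the second curve** -/
theorem eMax_loc {v : Pr K} (h : v ∉ T6 K) {j : K} (h0 : j ≠ 0) (h1 : j ≠ 1728) :
    8 * (2 * ll v 0 (zz j) - df (Sum.inr v : Pl K) 0 (zz j)) +
      9 * (2 * ll v 2 (zz j) - df (Sum.inr v : Pl K) 2 (zz j)) +
      7 * (2 * ll v 1 (zz j) - df (Sum.inr v : Pl K) 1 (zz j)) ≤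
    (discExp v (eMax j) : ℝ) * Real.log (Nv v) := by
  have hl := log_Nv_pos v
  have hE := eMax_ne h0 h1
  obtain ⟨k, hk⟩ := disc_cong v hE
  have hj0 : fv v j ≠ 0 := ((fv v).pos h0).ne'
  have hj1 : fv v (j - 1728) ≠ 0 := ((fv v).pos (sub_ne_zero.2 h1)).ne'
  rw [eMax_Δ, map_mul, map_pow, map_pow, Real.log_mul (pow_ne_zero _ hj0) (pow_ne_zero _ hj1),
    Real.log_pow, Real.log_pow] at hk
  push_cast at hk
  have hd0 : (0 : ℝ) ≤ (discExp v (eMax j) : ℝ) * Real.log (Nv v) := by positivity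
  rcases cases4 h h0 h1 with ⟨m, hm, a1, a2, a3, a4, a5⟩ | ⟨m, hm, a1, a2, a3, a4, a5⟩ |
    ⟨m, hm, a1, a2, a3, a4, a5⟩ | ⟨a1, a2, a3, a4, a5⟩
  · rw [ll_zero a3, ll_pos hm a4, ll_zero a5, a3, a4, a5]
    rcases Nat.lt_or_ge 1 m with hm2 | hm2
    · have h3 : (2 : ℝ) ≤ m := by exact_mod_cast hm2
      nlinarith
    · have hm1 : m = 1 := by omega
      rw [hm1, Nat.cast_one] at a1 a2
      rw [a1, a2] at hk
      have c1 := int_of_log v (a := discExp v (eMax j)) (b := -17 + 12 * k)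
        (by push_cast; linarith)
      have c2 : 7 ≤ discExp v (eMax j) := by omega
      have c3 : (7 : ℝ) ≤ discExp v (eMax j) := by exact_mod_cast c2
      rw [hm1]
      push_cast
      nlinarith
  · rw [ll_pos hm a3, ll_zero a4, ll_zero a5, a3, a4, a5]
    rcases Nat.lt_or_ge 1 m with hm2 | hm2
    · have h3 : (2 : ℝ) ≤ m := by exact_mod_cast hm2
      nlinarith
    · have hm1 : m = 1 := by omega
      rw [hm1, Nat.cast_one] at a1
      rw [a1, a2, Real.log_one] at hk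
      have c1 := int_of_log v (a := discExp v (eMax j)) (b := 8 + 12 * k)
        (by push_cast; linarith)
      have c2 : 8 ≤ discExp v (eMax j) := by omega
      have c3 : (8 : ℝ) ≤ discExp v (eMax j) := by exact_mod_cast c2
      rw [hm1]
      push_cast
      nlinarith
  · rw [ll_zero a3, ll_zero a4, ll_pos hm a5, a3, a4, a5]
    rcases Nat.lt_or_ge 1 m with hm2 | hm2
    · have h3 : (2 : ℝ) ≤ m := by exact_mod_cast hm2
      nlinarith
    · have hm1 : m = 1 := by omega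
      rw [hm1, Nat.cast_one] at a2
      rw [a1, a2, Real.log_one] at hk
      have c1 := int_of_log v (a := discExp v (eMax j)) (b := 9 + 12 * k)
        (by push_cast; linarith)
      have c2 : 9 ≤ discExp v (eMax j) := by omega
      have c3 : (9 : ℝ) ≤ discExp v (eMax j) := by exact_mod_cast c2
      rw [hm1]
      push_cast
      nlinarith
  · rw [ll_zero a3, ll_zero a4, ll_zero a5, a3, a4, a5]
    linarith

end Pool.Agent.Q19.JL
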